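import Mathlib.Data.Real.Basic
import Pool.Agent.MP_96f5a9_co.h16.Cubic
import Pool.Agent.MP_96f5a9_co.h36.Gain

-- ======== part 0: formerly Pool.Agent.MP_96f5a9_co.h59.Spec
section MrgPart0

/-!
Wilf's inequality for multiplicity polynomial in the embedding dimension: statements of the modules.
-/

set_option autoImplicit false

namespace Pool.Agent.MP_96f5a9_co.H59

open Finset H51 H16

/-- The order ideal of least factorizations of the Apery elements. -/
structure Md {ι : Type} [Fintype ι] (g : ι → ℕ) (T : Finset (ι → ℕ)) (m F : ℕ) : Prop where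
  pos : 0 < m
  le : ∀ i, m ≤ g i
  down : ∀ x ∈ T, ∀ y, y ≤ x → y ∈ T
  card : T.card = m
  inj : ∀ x ∈ T, ∀ y ∈ T, wt g x ≡ wt g y [MOD m] → x = y
  top : ∀ x ∈ T, wt g x ≤ F + m
  min : ∀ y, ∃ x ∈ T, wt g x ≡ wt g y [MOD m] ∧ wt g x ≤ wt g y

/-- `z` is a top element of degree `n` that is served at least as well as the tuple `gs`. -/
def Good {ι : Type} [Fintype ι] (g : ι → ℕ) (m F n : ℕ) (gs : Fin n → ℕ) (z : ι → ℕ) : Prop :=
  F < wt g z ∧ dg z = n ∧
    ∑ j, (F + m - wt g z + gs j) / m ≤ ∑ i, z i * ((F + m - wt g z + g i) / m)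

/-- row CORE: the accounting identity with a set `G` of good elements -/
def CoreStmt : Prop := ∀ (ι : Type) [Fintype ι] [DecidableEq ι] (g : ι → ℕ) (T : Finset (ι → ℕ))
  (m F D0 K n : ℕ) (gs : Fin n → ℕ) (G : Finset (ι → ℕ)), Md g T m F → 3 ≤ n → n < D0 → D0 < K →
  (∀ z ∈ T, (univ.filter fun i => 0 < z i).card < K) → ∑ j, gs j ≤ F + m → G ⊆ T →
  (∀ z ∈ G, Good g m F n gs z) →
  ∑ j, gs j + ∑ y ∈ T.filter (fun y => n ≤ dg y + 1 ∧ wt g y ≤ F), (dg y + Fintype.card ι) ≤
    (Fintype.card ι + 1) * ∑ x ∈ T, (F + m - wt g x) / m + ∑ z ∈ T.filter (fun z => n ≤ dg z), dg z +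
      ∑ z ∈ T \ G, ((if dg z < D0 then dg z - 2 else K) + n)

/-- row EXCH: the exchange lemma -/
def ExchStmt : Prop := ∀ (ι Γ : Type) [Fintype ι] [AddCommGroup Γ] (γ : ι → Γ) (n j K : ℕ)
  (E : Finset (Fin n → ι)) (V : Finset (Fin (j + 1) → ι)) (L : Finset Γ), j < n →
  0 < Fintype.card ι →
  (∀ x ∈ E, ∀ x' ∈ E, ∑ u, γ (x u) = ∑ u, γ (x' u) → x = x') →
  (∀ b ∈ V, ∀ b' ∈ V, ∑ u, γ (b u) = ∑ u, γ (b' u) → b = b') →
  (∀ x ∈ E, ∀ b ∈ V, ∀ u : Fin n, j ≤ u.1 → ∀ i, ∑ v, γ (x v) - γ (x u) + γ (b i) ∈ L) →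
  Fintype.card ι ^ n ≤ K * E.card → Fintype.card ι ^ (j + 1) ≤ K * V.card →
  Fintype.card ι * L.card ≤ K * Fintype.card ι ^ n → Fintype.card ι ≤ K ^ (7 * n ^ 2)

/-- row DOM: almost all top elements of a dense level dominate one tuple of weight about `F` -/
def DomStmt : Prop := ∀ (ι : Type) [Fintype ι] [DecidableEq ι] (g : ι → ℕ) (T : Finset (ι → ℕ))
  (m F n d β K : ℕ) (Z : Finset (ι → ℕ)), Md g T m F → 0 < n → Z ⊆ T →
  (∀ z ∈ Z, F < wt g z ∧ dg z = n) → n * β < Z.card → d ≤ m → 2 * m ≤ 2 * Z.card + d →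
  2 * n * Fintype.card ι ^ n ≤ K * d → Fintype.card ι ^ n ≤ K * β →
  Fintype.card ι * (T.filter fun y => wt g y ≤ F).card ≤ K * Fintype.card ι ^ n →
  K ^ (7 * n ^ 2) < Fintype.card ι →
  ∃ (gs : Fin n → ℕ) (G : Finset (ι → ℕ)), G ⊆ Z ∧ Z.card ≤ G.card + n * β ∧
    (∀ z ∈ G, Good g m F n gs z) ∧ ∑ j, gs j ≤ F + m ∧ F + 1 ≤ ∑ j, gs j + n * d

/-- row DEAD: a level of degree at least three that fills the residues has many dead edges -/
def DeadStmt : Prop := ∀ (ι : Type) [Fintype ι] [DecidableEq ι] (g : ι → ℕ)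
  (Y Z : Finset (ι → ℕ)) (m F n E : ℕ), 3 ≤ n →
  (∀ z ∈ Z, dg z = n ∧ F < wt g z ∧ wt g z ≤ F + m) →
  (∀ z ∈ Z, ∀ z' ∈ Z, wt g z = wt g z' → z = z') → (∀ y ∈ Y, dg y + 1 = n) →
  (∀ z ∈ Z, ∀ i, 0 < z i → z - ee i ∈ Y) → m ≤ Z.card + E → 10 ^ 4 * n ^ 2 * E ≤ m →
  10 ^ 3 * n ^ 2 ≤ Fintype.card ι → 10 ^ 3 * n ≤ m →
  n * Z.card + E < (n - 1 + Fintype.card ι) * Y.card

/-- row MAIN: the theorem for ideals -/
def MainStmt : Prop := ∀ k : ℕ, ∃ p0 : ℕ, ∀ (ι : Type) [Fintype ι] [DecidableEq ι] (g : ι → ℕ)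
  (T : Finset (ι → ℕ)) (m F : ℕ), Md g T m F → p0 ≤ Fintype.card ι →
  m ≤ (Fintype.card ι + 1) ^ k →
  F + 1 ≤ (Fintype.card ι + 1) * ∑ x ∈ T, (F + m - wt g x) / m

end Pool.Agent.MP_96f5a9_co.H59

end MrgPart0

-- ======== part 1: formerly Pool.Agent.MP_96f5a9_co.h80.EndA
section MrgPart1

/-!
The gain at the ends, first part: almost every top point has many factors below and many factors
above the median generator.
-/

set_option autoImplicit false

namespace Pool.Agent.MP_96f5a9_co.H80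

open Finset Function H51 H16 H93 H36

variable {ι : Type} [Fintype ι] [DecidableEq ι] {g : ι → ℕ} {T : Finset (ι → ℕ)} {m M : ℕ}

/-- The number of factors in `P`. -/
def dp (P : Finset ι) (z : ι → ℕ) : ℕ := ∑ j ∈ P, z j

/-- The weight of the blocked edges in the direction `i`. -/
def Ad (g : ι → ℕ) (T : Finset (ι → ℕ)) (M m : ℕ) (i : ι) : ℕ :=
  ∑ y ∈ T.filter (fun y => y + ee i ∉ T), (y i + 1) * ((M - wt g y) / m)

lemma dp_compl (P : Finset ι) (z : ι → ℕ) : dp P z + dp Pᶜ z = dg z := sum_add_sum_compl P z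

lemma dp_le (P : Finset ι) (z : ι → ℕ) : dp P z ≤ dg z := dp_compl P z ▸ Nat.le_add_right _ _

omit [Fintype ι] in
lemma dp_not {P : Finset ι} {j : ι} (h : j ∉ P) (z : ι → ℕ) : dp P (z - ee j) = dp P z :=
  sum_congr rfl fun i hi => by
    have : i ≠ j := fun e => h (e ▸ hi)
    simp [ee, this]

omit [Fintype ι] in
lemma dp_mem {P : Finset ι} {j : ι} (h : j ∈ P) {z : ι → ℕ} (hz : 0 < z j) :
    dp P (z - ee j) + 1 = dp P z := by
  conv_rhs => rw [← sub_add_ee hz]
  simp only [dp, Pi.add_apply, sum_add_distrib]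
  simp [ee, Pi.single_apply, h]

lemma wt_sub {z : ι → ℕ} {j : ι} (hz : 0 < z j) : wt g (z - ee j) + g j = wt g z := by
  rw [← wt_ee, sub_add_ee hz]

omit [Fintype ι] in
lemma down (hT : ∀ x ∈ T, ∀ y, y ≤ x → y ∈ T) {z : ι → ℕ} (hz : z ∈ T) (i : ι) : z - ee i ∈ T :=
  hT z hz _ fun _ => Nat.sub_le _ _

lemma edge_ge (A B : Finset (ι → ℕ)) (j : ι) (φ : (ι → ℕ) → ℕ) (h : ∀ y ∈ A, y + ee j ∈ B) :
    ∑ y ∈ A, (y j + 1) * φ y ≤ ∑ z ∈ B, z j * φ (z - ee j) := by
  calc _ = ∑ z ∈ A.image (fun y => y + ee j), z j * φ (z - ee j) := by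
        rw [sum_image fun _ _ _ _ e => add_right_cancel e]
        exact sum_congr rfl fun y _ => by simp [ee]
    _ ≤ _ := sum_le_sum_of_subset fun z hz => by
        obtain ⟨y, hy, rfl⟩ := mem_image.1 hz
        exact h y hy

/-- Parents of a set of points with many factors in `P`. -/
lemma parents (P : Finset ι) (Z Y : Finset (ι → ℕ)) (φ : (ι → ℕ) → ℕ) {c : ℕ}
    (h : ∀ z ∈ Z, ∀ j ∈ P, 0 < z j → z - ee j ∈ Y) (hc : ∀ y ∈ Y, P.card + dg y ≤ c) :
    ∑ z ∈ Z, ∑ j ∈ P, z j * φ (z - ee j) ≤ c * ∑ y ∈ Y, φ y := by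
  rw [sum_comm, mul_sum]
  refine (sum_le_sum fun j hj =>
    shift_le Y Z j (fun k => k) rfl φ fun z hz => h z hz j hj).trans ?_
  rw [sum_comm]
  refine sum_le_sum fun y hy => ?_
  rw [← sum_mul, sum_add_distrib, sum_const, smul_eq_mul, mul_one]
  have := dp_le P y
  have := hc y hy
  exact Nat.mul_le_mul_right _ (by unfold dp at *; omega)

/-- The composition test. -/
lemma test (hT : ∀ x ∈ T, ∀ y, y ≤ x → y ∈ T) (P : Finset ι) (hP : Fintype.card ι ≤ 2 * P.card)
    (hD : ∀ y ∈ T, 2 * dg y ≤ Fintype.card ι) (v : (ι → ℕ) → ℕ)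
    (hv : ∀ y, v y ≤ (M - wt g y) / m) (L : ℕ) :
    ∑ z ∈ T, ∑ j ∈ Pᶜ, z j * (v (z - ee j) * (L - dp P z)) ≤
      2 * (L * ∑ i, Ad g T M m i +
        ∑ z ∈ T, ∑ j ∈ P, z j * (v (z - ee j) * (L + 1 - dp P z))) := by
  set φ : (ι → ℕ) → ℕ := fun y => v y * (L - dp P y) with hφ
  have h1 := parents Pᶜ T T φ (c := 2 * P.card) (fun z hz j _ _ => down hT hz j) fun y hy => by
    have := hD y hy
    have := card_compl P
    omega
  have h2 : ∑ _j ∈ P, ∑ y ∈ T, φ y ≤
      ∑ j ∈ P, (L * Ad g T M m j + ∑ z ∈ T, z j * φ (z - ee j)) := by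
    refine sum_le_sum fun j _ => ?_
    rw [← sum_filter_add_sum_filter_not T (fun y => y + ee j ∉ T), Ad, mul_sum]
    refine add_le_add (sum_le_sum fun y _ => ?_) (le_trans (sum_le_sum fun y _ => ?_)
      (edge_ge _ T j φ fun y hy => not_not.1 (mem_filter.1 hy).2))
    · calc φ y ≤ (M - wt g y) / m * L := Nat.mul_le_mul (hv y) (Nat.sub_le _ _)
        _ = L * (1 * ((M - wt g y) / m)) := by ring
        _ ≤ _ := by gcongr; omega
    · exact Nat.le_mul_of_pos_left _ (Nat.succ_pos _)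
  rw [sum_const, smul_eq_mul, sum_add_distrib, ← mul_sum, sum_comm] at h2
  have h3 : L * ∑ j ∈ P, Ad g T M m j ≤ L * ∑ i, Ad g T M m i :=
    Nat.mul_le_mul_left _ (sum_le_sum_of_subset (subset_univ _))
  have h4 : ∑ z ∈ T, ∑ j ∈ Pᶜ, z j * (v (z - ee j) * (L - dp P z)) =
      ∑ z ∈ T, ∑ j ∈ Pᶜ, z j * φ (z - ee j) :=
    sum_congr rfl fun z _ => sum_congr rfl fun j hj => by
      simp only [hφ, dp_not (mem_compl.1 hj)]
  have h5 : ∑ z ∈ T, ∑ j ∈ P, z j * (v (z - ee j) * (L + 1 - dp P z)) =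
      ∑ z ∈ T, ∑ j ∈ P, z j * φ (z - ee j) :=
    sum_congr rfl fun z _ => sum_congr rfl fun j hj => by
      rcases Nat.eq_zero_or_pos (z j) with h | h
      · simp [h]
      · simp only [hφ, ← dp_mem hj h, Nat.add_sub_add_right]
  rw [h4, h5]
  rw [mul_assoc] at h1
  omega

lemma cut (L k : ℕ) : k * (L + 1 - k) ≤ L * (L - k + 1) := by
  by_cases h : k ≤ L
  · exact Nat.mul_le_mul h (by omega)
  · rw [show L + 1 - k = 0 by omega]; simp

omit [Fintype ι] [DecidableEq ι] in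
lemma nontop_le (T : Finset (ι → ℕ)) (f : (ι → ℕ) → ℕ) (L : ℕ) (hf : ∀ z, f z ≤ L)
    (a : (ι → ℕ) → ℕ) : ∑ z ∈ T.filter (fun z => ¬ a z = 0), f z ≤ L * ∑ z ∈ T, a z := by
  rw [mul_sum]
  refine (sum_le_sum fun z hz => ?_).trans (sum_le_sum_of_subset (filter_subset _ _))
  exact (hf z).trans (Nat.le_mul_of_pos_right _ (Nat.pos_of_ne_zero (mem_filter.1 hz).2))

/-- Top points with few factors below the median are rare. -/
lemma test_low (hm : 0 < m) (hg : ∀ i, m ≤ g i) (hT : ∀ x ∈ T, ∀ y, y ≤ x → y ∈ T)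
    (hcard : T.card = m) (hM : ∀ x ∈ T, wt g x ≤ M) {s c : ℕ} (hms : m ≤ s)
    (hs : Fintype.card ι ≤ 2 * (univ.filter fun i => g i ≤ s).card)
    (hD : ∀ y ∈ T, 2 * dg y ≤ Fintype.card ι) (hc : 0 < c) (hcM : 32 * (c * s) ≤ M) :
    ∑ z ∈ T.filter (fun z => (M - wt g z) / m = 0), (2 * c - dp (univ.filter fun i => g i ≤ s) z) ≤
      ∑ i, Ad g T M m i + 5 * (c * ∑ t ∈ T, (M - wt g t) / m) + 2 * m := by
  set B := univ.filter fun i => g i ≤ s with hB
  have h0 := test (g := g) (M := M) (m := m) hT B hs hD (fun y => (M - wt g y) / m)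
    (fun _ => le_rfl) (2 * c)
  have hsc : s ≤ c * s := Nat.le_mul_of_pos_left _ hc
  have h1 : 29 * (c * s) * ∑ z ∈ T.filter (fun z => (M - wt g z) / m = 0), (2 * c - dp B z) ≤
      2 * m * ∑ z ∈ T, ∑ j ∈ Bᶜ, z j * ((M - wt g (z - ee j)) / m * (2 * c - dp B z)) := by
    rw [mul_sum, mul_sum]
    refine (sum_le_sum fun z hz => ?_).trans (sum_le_sum_of_subset (filter_subset _ _))
    obtain ⟨a1, a2⟩ := mem_filter.1 hz
    by_cases a3 : 2 * c ≤ dp B z
    · simp [Nat.sub_eq_zero_of_le a3]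
    have a4 : M - wt g z < m := (Nat.div_eq_zero_iff_lt hm).1 a2
    have a5 : ∑ j ∈ B, z j * g j ≤ dp B z * s := by
      rw [dp, sum_mul]
      exact sum_le_sum fun j hj => Nat.mul_le_mul_left _ (mem_filter.1 hj).2
    have a6 : ∑ j ∈ Bᶜ, z j * g j ≤ 2 * m * ∑ j ∈ Bᶜ, z j * ((M - wt g (z - ee j)) / m) := by
      rw [mul_sum]
      refine sum_le_sum fun j _ => ?_
      rcases Nat.eq_zero_or_pos (z j) with h | h
      · simp [h]
      have b1 := wt_sub (g := g) h
      have b2 := hM z a1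
      have b3 := hg j
      have b4 := le_two_floor hm (show m ≤ M - wt g (z - ee j) by omega)
      calc z j * g j ≤ z j * (2 * (m * ((M - wt g (z - ee j)) / m))) :=
            Nat.mul_le_mul_left _ (by omega)
        _ = _ := by ring
    have a7 : ∑ j ∈ B, z j * g j + ∑ j ∈ Bᶜ, z j * g j = wt g z := sum_add_sum_compl B _
    have a8 : dp B z * s ≤ 2 * c * s := Nat.mul_le_mul_right _ (by omega)
    simp only [← mul_assoc (z _), ← sum_mul]
    rw [← mul_assoc (2 * m)]
    refine Nat.mul_le_mul_right _ ?_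
    rw [mul_assoc 2 c] at a8
    omega
  have h2 : m * ∑ z ∈ T, ∑ j ∈ B, z j * ((M - wt g (z - ee j)) / m * (2 * c + 1 - dp B z)) ≤
      ∑ z ∈ T, (2 * c * ((2 * c + 1) * (m * ((M - wt g z) / m))) +
        2 * c * (2 * s * (2 * c - dp B z)) + 2 * c * (2 * s)) := by
    rw [mul_sum]
    refine sum_le_sum fun z hz => ?_
    have a1 : m * ∑ j ∈ B, z j * ((M - wt g (z - ee j)) / m * (2 * c + 1 - dp B z)) ≤
        dp B z * (2 * c + 1 - dp B z) * (m * ((M - wt g z) / m) + 2 * s) := by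
      rw [mul_sum, mul_assoc (dp B z), dp, sum_mul]
      refine sum_le_sum fun j hj => ?_
      rcases Nat.eq_zero_or_pos (z j) with h | h
      · simp [h]
      have b1 := wt_sub (g := g) h
      have b2 := Nat.mul_div_le (M - wt g (z - ee j)) m
      have b3 := Nat.div_add_mod (M - wt g z) m
      have b4 := Nat.mod_lt (M - wt g z) hm
      have b5 := (mem_filter.1 hj).2
      have b6 : m * ((M - wt g (z - ee j)) / m) ≤ m * ((M - wt g z) / m) + 2 * s := by omega
      calc _ = z j * ((2 * c + 1 - dp B z) * (m * ((M - wt g (z - ee j)) / m))) := by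
            unfold dp; ring
        _ ≤ _ := by unfold dp; gcongr
    have a2 := Nat.mul_le_mul_right (m * ((M - wt g z) / m) + 2 * s) (cut (2 * c) (dp B z))
    have a3 : (2 * c - dp B z + 1) * (m * ((M - wt g z) / m)) ≤
        (2 * c + 1) * (m * ((M - wt g z) / m)) := Nat.mul_le_mul_right _ (by omega)
    have a4 := Nat.mul_le_mul_left (2 * c) a3
    generalize m * ((M - wt g z) / m) = x at *
    generalize 2 * c - dp B z = k at *
    nlinarith
  have h3 := nontop_le T (fun z => 2 * c - dp B z) (2 * c) (fun _ => Nat.sub_le _ _)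
    fun z => (M - wt g z) / m
  have h4 := sum_filter_add_sum_filter_not T (fun z => (M - wt g z) / m = 0)
    fun z => 2 * c - dp B z
  simp only [sum_add_distrib, ← mul_sum, sum_const, hcard, smul_eq_mul] at h2
  generalize ∑ z ∈ T.filter (fun z => (M - wt g z) / m = 0), (2 * c - dp B z) = X at *
  generalize ∑ z ∈ T.filter (fun z => ¬ (M - wt g z) / m = 0), (2 * c - dp B z) = X' at *
  generalize ∑ z ∈ T, (2 * c - dp B z) = X'' at *
  generalize ∑ z ∈ T, ∑ j ∈ B, z j * ((M - wt g (z - ee j)) / m * (2 * c + 1 - dp B z)) = U at *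
  generalize ∑ z ∈ T, ∑ j ∈ Bᶜ, z j * ((M - wt g (z - ee j)) / m * (2 * c - dp B z)) = V at *
  generalize ∑ t ∈ T, (M - wt g t) / m = n at *
  generalize ∑ i, Ad g T M m i = A at *
  subst h4
  have c1 := Nat.mul_le_mul_left (2 * m) h0
  have c2 : c * (m * A) ≤ c * (s * A) := by gcongr
  have c3 : c * ((2 * c + 1) * (m * n)) ≤ c * ((3 * c) * (s * n)) := by gcongr; omega
  have c4 := Nat.mul_le_mul_left (c * s) h3
  have c5 : 0 < c * s := Nat.mul_pos hc (by omega)
  refine Nat.le_of_mul_le_mul_left ?_ c5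
  nlinarith [Nat.zero_le (c * s * A), Nat.zero_le (c * s * m), Nat.zero_le (c * s * (c * n)),
    Nat.zero_le (c * s * X)]

/-- Top points with many factors below and above the median. -/
def Good (g : ι → ℕ) (M m s b : ℕ) (z : ι → ℕ) : Prop :=
  (M - wt g z) / m = 0 ∧ 8 * b < dp (univ.filter fun i => g i ≤ s) z ∧
    b < dp (univ.filter fun i => s ≤ g i) z

instance (g : ι → ℕ) (M m s b : ℕ) : DecidablePred (Good g M m s b) := fun _ => by
  unfold Good; infer_instance

theorem bad_le (hm : 0 < m) (hg : ∀ i, m ≤ g i) (hT : ∀ x ∈ T, ∀ y, y ≤ x → y ∈ T)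
    (hcard : T.card = m) (hM : ∀ x ∈ T, wt g x ≤ M) {s b : ℕ} (hms : m ≤ s)
    (hs : Fintype.card ι ≤ 2 * (univ.filter fun i => g i ≤ s).card)
    (hs' : Fintype.card ι ≤ 2 * (univ.filter fun i => s ≤ g i).card)
    (hD : ∀ y ∈ T, 2 * dg y ≤ Fintype.card ι) (hb : 0 < b) (hbM : 256 * (b * s) ≤ M) :
    b * (T.filter fun z => ¬ Good g M m s b z).card ≤
      3 * ∑ i, Ad g T M m i + 30 * (b * ∑ t ∈ T, (M - wt g t) / m) + 4 * m := by
  have h0 := test_low hm hg hT hcard hM hms hs hD (c := 8 * b) (by omega) (by nlinarith)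
  set B := univ.filter fun i => g i ≤ s with hB
  set U := univ.filter fun i => s ≤ g i with hU
  have h1 := test (g := g) (M := M) (m := m) hT U hs' hD (fun y => min ((M - wt g y) / m) 1)
    (fun _ => min_le_left _ _) (2 * b)
  set G : (ι → ℕ) → Prop := fun z => (M - wt g z) / m = 0 ∧ 8 * b < dp B z with hG
  have h2 : 6 * b * ∑ z ∈ T.filter G, (2 * b - dp U z) ≤
      ∑ z ∈ T, ∑ j ∈ Uᶜ, z j * (min ((M - wt g (z - ee j)) / m) 1 * (2 * b - dp U z)) := by
    rw [mul_sum]
    refine (sum_le_sum fun z hz => ?_).trans (sum_le_sum_of_subset (filter_subset _ _))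
    obtain ⟨a1, -, a2⟩ := mem_filter.1 hz
    by_cases a3 : 2 * b ≤ dp U z
    · simp [Nat.sub_eq_zero_of_le a3]
    have a4 := dp_le B z
    have a5 := dp_compl U z
    calc _ ≤ dp Uᶜ z * (2 * b - dp U z) := Nat.mul_le_mul_right _ (by omega)
      _ ≤ _ := by
        rw [dp, sum_mul]
        refine sum_le_sum fun j _ => ?_
        rcases Nat.eq_zero_or_pos (z j) with h | h
        · simp [h]
        have b1 := wt_sub (g := g) h
        have b2 := hM z a1
        have b3 := hg j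
        rw [min_eq_right (Nat.div_pos (by omega) hm), one_mul]
  have h3 : ∑ z ∈ T, ∑ j ∈ U, z j * (min ((M - wt g (z - ee j)) / m) 1 * (2 * b + 1 - dp U z)) ≤
      ∑ z ∈ T, 2 * b * (2 * b - dp U z + 1) := by
    refine sum_le_sum fun z _ => le_trans ?_ (cut (2 * b) (dp U z))
    rw [dp, sum_mul]
    exact sum_le_sum fun j _ => Nat.mul_le_mul_left _
      ((Nat.mul_le_mul_right _ (min_le_right _ _)).trans_eq (one_mul _))
  simp only [← mul_sum, sum_add_distrib, sum_const, hcard, smul_eq_mul, mul_one] at h3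
  have h4 := sum_filter_add_sum_filter_not T G fun z => 2 * b - dp U z
  have h5 : ∑ z ∈ T.filter (fun z => ¬ G z), (2 * b - dp U z) ≤
      (T.filter fun z => ¬ G z).card * (2 * b) :=
    sum_le_card_nsmul _ _ _ fun _ _ => Nat.sub_le _ _
  have h6 : (T.filter fun z => ¬ G z).card * (8 * b) ≤
      ∑ z ∈ T.filter (fun z => (M - wt g z) / m = 0), (2 * (8 * b) - dp B z) +
        8 * b * ∑ t ∈ T, (M - wt g t) / m := by
    rw [sum_filter, mul_sum, ← sum_add_distrib]
    refine markov T _ _ _ fun z _ hz => ?_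
    by_cases a : (M - wt g z) / m = 0
    · have : ¬ 8 * b < dp B z := fun c => hz ⟨a, c⟩
      rw [if_pos a]; omega
    · exact (Nat.le_mul_of_pos_right _ (Nat.pos_of_ne_zero a)).trans (Nat.le_add_left _ _)
  have h7 : (T.filter fun z => ¬ Good g M m s b z).card * b ≤
      ∑ z ∈ T.filter G, (2 * b - dp U z) + (T.filter fun z => ¬ G z).card * b := by
    rw [← smul_eq_mul (card (T.filter fun z => ¬ G z)), ← sum_const, sum_filter, sum_filter,
      ← sum_add_distrib]
    refine markov T _ _ _ fun z _ hz => ?_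
    by_cases a : G z
    · have : ¬ b < dp U z := fun c => hz ⟨a.1, a.2, c⟩
      rw [if_pos a]; omega
    · rw [if_neg a, if_pos a]; omega
  generalize ∑ z ∈ T.filter G, (2 * b - dp U z) = X at *
  generalize ∑ z ∈ T.filter (fun z => ¬ G z), (2 * b - dp U z) = X' at *
  generalize ∑ z ∈ T, (2 * b - dp U z) = X'' at *
  generalize (T.filter fun z => ¬ G z).card = k at *
  generalize ∑ i, Ad g T M m i = A at *
  subst h4
  have c1 : b * X ≤ b * (2 * A + 2 * X' + 2 * m) := by nlinarith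
  have c2 := Nat.le_of_mul_le_mul_left c1 hb
  nlinarith

end Pool.Agent.MP_96f5a9_co.H80

end MrgPart1

-- ======== part 2: formerly Pool.Agent.MP_96f5a9_co.h80.End
section MrgPart2

/-!
The gain at the ends: blocked directions at non-top points pay for the spread of the generators.
-/

set_option autoImplicit false

namespace Pool.Agent.MP_96f5a9_co.H80

open Finset Function H51 H16 H93 H36

variable {ι : Type} [Fintype ι] [DecidableEq ι] {g : ι → ℕ} {T : Finset (ι → ℕ)} {m M : ℕ}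

/-- The truncated distance of a generator from the median. -/
def ds (g : ι → ℕ) (s m : ℕ) (i : ι) : ℕ := min (g i - s + (s - g i)) m

omit [DecidableEq ι] in
lemma card_window (hinj : ∀ x ∈ T, ∀ y ∈ T, wt g x ≡ wt g y [MOD m] → x = y)
    (hM : ∀ x ∈ T, wt g x ≤ M) (Z : Finset (ι → ℕ)) (hZ : Z ⊆ T) (a c : ℕ)
    (h : ∀ z ∈ Z, a ≤ M - wt g z ∧ M - wt g z < c) : Z.card ≤ c - a := by
  rw [← Nat.card_Ico]
  refine card_le_card_of_injOn (fun z => M - wt g z) (fun z hz => mem_coe.2 (mem_Ico.2 (h z hz)))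
    fun x hx y hy e => hinj x (hZ hx) y (hZ hy) ?_
  have := hM x (hZ hx)
  have := hM y (hZ hy)
  have : wt g x = wt g y := by simp only at e; omega
  rw [this]

/-- Good points in a window, and their parents. -/
lemma count {s b u : ℕ} (hcard : T.card = m) (hD : ∀ y ∈ T, 2 * dg y ≤ Fintype.card ι)
    (P : Finset ι) (W : (ι → ℕ) → Prop) [DecidablePred W] (Y : Finset (ι → ℕ)) (hY : Y ⊆ T)
    (hu : u ≤ m) (h1 : ((T.filter (Good g M m s b)).filter fun z => ¬ W z).card ≤ m - u)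
    (h2 : ∀ z, Good g M m s b z → b ≤ dp P z)
    (h3 : ∀ z ∈ T, Good g M m s b z → W z → ∀ j ∈ P, 0 < z j → z - ee j ∈ Y) :
    b * u ≤ 2 * Fintype.card ι * Y.card + b * (T.filter fun z => ¬ Good g M m s b z).card := by
  have a1 := card_filter_add_card_filter_not (s := T) (Good g M m s b)
  have a2 := card_filter_add_card_filter_not (s := T.filter (Good g M m s b)) W
  have a3 := parents P ((T.filter (Good g M m s b)).filter W) Y (fun _ => 1)
    (c := 2 * Fintype.card ι) (fun z hz => h3 z (mem_filter.1 (mem_filter.1 hz).1).1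
      (mem_filter.1 (mem_filter.1 hz).1).2 (mem_filter.1 hz).2) fun y hy => by
    have := hD y (hY hy)
    have := card_le_univ P
    omega
  have a4 := card_nsmul_le_sum ((T.filter (Good g M m s b)).filter W) (dp P) b
    fun z hz => h2 z (mem_filter.1 (mem_filter.1 hz).1).2
  simp only [mul_one, sum_const, smul_eq_mul] at a3 a4
  have a5 : u ≤ ((T.filter (Good g M m s b)).filter W).card +
    (T.filter fun z => ¬ Good g M m s b z).card := by omega
  have a6 := Nat.mul_le_mul_left b a5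
  unfold dp at a4
  nlinarith

lemma card_le_Ad (hm : 0 < m) (i : ι) (Y : Finset (ι → ℕ))
    (h : ∀ y ∈ Y, y ∈ T ∧ y + ee i ∉ T ∧ m ≤ M - wt g y) : Y.card ≤ Ad g T M m i := by
  rw [card_eq_sum_ones]
  refine (sum_le_sum fun y hy => ?_).trans (sum_le_sum_of_subset fun y hy =>
    mem_filter.2 ⟨(h y hy).1, (h y hy).2.1⟩)
  exact Nat.mul_pos (Nat.succ_pos _) (Nat.div_pos (h y hy).2.2 hm)

/-- The estimate for one direction. -/
lemma one_dir (hm : 0 < m) (hg : ∀ i, m ≤ g i) (hT : ∀ x ∈ T, ∀ y, y ≤ x → y ∈ T)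
    (hcard : T.card = m) (hinj : ∀ x ∈ T, ∀ y ∈ T, wt g x ≡ wt g y [MOD m] → x = y)
    (hM : ∀ x ∈ T, wt g x ≤ M) (hD : ∀ y ∈ T, 2 * dg y ≤ Fintype.card ι) (s b : ℕ) (i : ι) :
    b * ds g s m i ≤ 2 * Fintype.card ι *
      (Ad g T M m i + ∑ z ∈ T.filter (fun z => ¬ (M - wt g z) / m = 0), z i) +
      b * (T.filter fun z => ¬ Good g M m s b z).card := by
  have hu : ds g s m i ≤ m := min_le_right _ _
  have hu' : ds g s m i ≤ g i - s + (s - g i) := min_le_left _ _
  have htop : ∀ z, Good g M m s b z → M - wt g z < m := fun z hz =>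
    (Nat.div_eq_zero_iff_lt hm).1 hz.1
  have hsub : ∀ W : (ι → ℕ) → Prop, ∀ [DecidablePred W],
      (T.filter (Good g M m s b)).filter W ⊆ T := fun W _ =>
    (filter_subset _ _).trans (filter_subset _ _)
  by_cases hi : s ≤ g i
  · refine (count hcard hD (univ.filter fun i => g i ≤ s) (fun z => M - wt g z < ds g s m i)
      (T.filter fun y => m ≤ M - wt g y ∧ M - wt g y < g i) (filter_subset _ _) hu
      (card_window hinj hM _ (hsub _) _ _ fun z hz => ⟨not_lt.1 (mem_filter.1 hz).2,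
        htop z (mem_filter.1 (mem_filter.1 hz).1).2⟩)
      (fun z hz => by have := hz.2.1; omega) fun z hz _ hw j hj h => ?_).trans ?_
    · have b1 := wt_sub (g := g) h
      have b2 := hM z hz
      have b3 := hg j
      have b4 := (mem_filter.1 hj).2
      exact mem_filter.2 ⟨down hT hz j, by omega, by omega⟩
    · gcongr
      refine (card_le_Ad hm i _ fun y hy => ?_).trans (Nat.le_add_right _ _)
      obtain ⟨a1, a2, a3⟩ := mem_filter.1 hy
      refine ⟨a1, fun c => ?_, a2⟩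
      have := hM _ c
      rw [wt_ee] at this
      omega
  · refine (count hcard hD (univ.filter fun i => s ≤ g i)
      (fun z => m - ds g s m i ≤ M - wt g z)
      (T.filter fun y => m + g i ≤ M - wt g y) (filter_subset _ _) hu
      ((card_window hinj hM _ (hsub _) 0 _ fun z hz => ⟨Nat.zero_le _,
        not_le.1 (mem_filter.1 hz).2⟩).trans (Nat.sub_zero _).le)
      (fun z hz => hz.2.2.le) fun z hz _ hw j hj h => ?_).trans ?_
    · have b1 := wt_sub (g := g) h
      have b2 := hM z hz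
      have b4 := (mem_filter.1 hj).2
      exact mem_filter.2 ⟨down hT hz j, by omega⟩
    · gcongr
      rw [← card_filter_add_card_filter_not (fun y => y + ee i ∉ T)]
      refine add_le_add (card_le_Ad hm i _ fun y hy => ?_) ?_
      · obtain ⟨a1, a2⟩ := mem_filter.1 hy
        exact ⟨(mem_filter.1 a1).1, a2, by have := (mem_filter.1 a1).2; omega⟩
      · have := edge_ge ((T.filter fun y => m + g i ≤ M - wt g y).filter
            fun y => ¬ (y + ee i ∉ T)) (T.filter fun z => ¬ (M - wt g z) / m = 0) i (fun _ => 1)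
          fun y hy => mem_filter.2 ⟨not_not.1 (mem_filter.1 hy).2, by
            have := (mem_filter.1 (mem_filter.1 hy).1).2
            rw [wt_ee]
            exact (Nat.div_pos (by omega) hm).ne'⟩
        simp only [mul_one] at this
        rw [card_eq_sum_ones]
        exact (sum_le_sum fun _ _ => Nat.succ_pos _).trans this

/-- The spread counted with the multiplicities of the factors. -/
lemma spread_le (hm : 0 < m) (hg : ∀ i, m ≤ g i) (hT : ∀ x ∈ T, ∀ y, y ≤ x → y ∈ T)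
    (hM : ∀ x ∈ T, wt g x ≤ M) (u : ι → ℕ) (hu : ∀ i, u i ≤ m) :
    Fintype.card ι * ∑ i, (∑ t ∈ T, t i) * u i ≤
      (∑ i, Ad g T M m i + ∑ t ∈ T, dg t) * ∑ i, u i +
        Fintype.card ι * (m * ∑ z ∈ T.filter (fun z => ¬ (M - wt g z) / m = 0), dg z) := by
  set N := T.filter fun z => ¬ (M - wt g z) / m = 0 with hN
  have h1 : ∀ i, ∑ t ∈ T, t i ≤ N.card + ∑ y ∈ N, y i := fun i => by
    have := shift_le N T i (fun k => k) rfl (fun _ => 1) fun z hz h => mem_filter.2
      ⟨down hT hz i, by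
        have b1 := wt_sub (g := g) h
        have b2 := hM z hz
        have b3 := hg i
        exact (Nat.div_pos (by omega) hm).ne'⟩
    simp only [mul_one, sum_add_distrib, sum_const, smul_eq_mul] at this
    omega
  have h2 : ∑ _i : ι, N.card ≤ ∑ i, (Ad g T M m i + ∑ t ∈ T, t i) := by
    refine sum_le_sum fun i _ => ?_
    rw [← card_filter_add_card_filter_not (fun y => y + ee i ∉ T)]
    refine add_le_add (card_le_Ad hm i _ fun y hy => ?_) ?_
    · obtain ⟨a1, a2⟩ := mem_filter.1 hy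
      exact ⟨(mem_filter.1 a1).1, a2, not_lt.1 fun c =>
        (mem_filter.1 a1).2 ((Nat.div_eq_zero_iff_lt hm).2 c)⟩
    · have := edge_ge (N.filter fun y => ¬ (y + ee i ∉ T)) T i (fun _ => 1)
        fun y hy => not_not.1 (mem_filter.1 hy).2
      simp only [mul_one] at this
      rw [card_eq_sum_ones]
      exact (sum_le_sum fun _ _ => Nat.succ_pos _).trans this
  rw [sum_const, card_univ, smul_eq_mul, sum_add_distrib, sum_comm (s := univ) (t := T)] at h2
  have h3 : ∑ i, (∑ t ∈ T, t i) * u i ≤ ∑ i, (N.card * u i + m * ∑ y ∈ N, y i) :=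
    sum_le_sum fun i _ => by
      have := Nat.mul_le_mul_right (u i) (h1 i)
      have := Nat.mul_le_mul_left (∑ y ∈ N, y i) (hu i)
      nlinarith
  rw [sum_add_distrib, ← mul_sum, ← mul_sum, sum_comm (s := univ) (t := N)] at h3
  have h4 := Nat.mul_le_mul_left (Fintype.card ι) h3
  have h5 := Nat.mul_le_mul_right (∑ i, u i) h2
  unfold dg
  nlinarith

/-- The gain at the ends. -/
theorem ends (hm : 2 ≤ m) (hg : ∀ i, m ≤ g i) (hT : ∀ x ∈ T, ∀ y, y ≤ x → y ∈ T)
    (hcard : T.card = m) (hinj : ∀ x ∈ T, ∀ y ∈ T, wt g x ≡ wt g y [MOD m] → x = y)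
    (hM : ∀ x ∈ T, wt g x ≤ M) (hp : 2 ^ 15 ≤ Fintype.card ι) {s : ℕ}
    (hs1 : Fintype.card ι ≤ 2 * (univ.filter fun i => g i ≤ s).card)
    (hs2 : Fintype.card ι ≤ 2 * (univ.filter fun i => s ≤ g i).card) :
    (∑ t ∈ T, dg t) * ∑ i, ds g s m i + Fintype.card ι * ∑ i, (∑ t ∈ T, t i) * ds g s m i ≤
      2 ^ 70 * (Fintype.card ι * (m * ∑ i, Ad g T M m i + m * m)) := by
  have hm0 : 0 < m := by omega
  have hG : min (∑ t ∈ T, (M - wt g t) / m) m * ∑ t ∈ T, dg t ≤ 2 ^ 38 * (m * ∑ i, Ad g T M m i) +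
    2 ^ 19 * (m * min (∑ t ∈ T, (M - wt g t) / m) m) := gain_dead hm hg hT hcard hinj hM hp
  have eA : ∑ i, ∑ t ∈ T, gp g T M i t / m = ∑ i, Ad g T M m i :=
    sum_congr rfl fun i _ => sum_top hT i fun y => (M - wt g y) / m
  have eA' : ∀ i, ∑ t ∈ T, gp g T M i t / m = Ad g T M m i :=
    fun i => sum_top hT i fun y => (M - wt g y) / m
  have hc := coord_le hm0 hg hT hM
  have hMn := top_le hm0 hg hT hcard hM
  have hlow := low' (m := m) hT hM s hs2
  have hms : m ≤ s := by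
    obtain ⟨i, hi⟩ := card_pos.1 (show 0 < (univ.filter fun i => g i ≤ s).card by omega)
    exact (hg i).trans (mem_filter.1 hi).2
  have hmany := deep_many (g := g) (M := M) hm0 hT hM hms le_rfl hs1 (by omega)
  have hsmall := fun i => small_gen (s := s) (i := i) hm hg hT hM
  have hu : ∀ i, ds g s m i ≤ m := fun _ => min_le_right _ _
  have hsp := spread_le hm0 hg hT hM (ds g s m) hu
  have hone := fun hD => one_dir hm0 hg hT hcard hinj hM hD s (M / (256 * s))
  have hbad := fun hD hb => bad_le hm0 hg hT hcard hM hms hs1 hs2 hD (b := M / (256 * s)) hb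
    (by have := Nat.mul_div_le M (256 * s); linarith only [this])
  have hDD : ∑ t ∈ T, dg t = ∑ i, ∑ t ∈ T, t i := sum_comm
  have hE : ∑ i, ds g s m i ≤ Fintype.card ι * m := sum_le_card_nsmul _ _ _ fun i _ => hu i
  have hE1 : ∑ i, (∑ t ∈ T, t i) * ds g s m i ≤ (∑ t ∈ T, dg t) * m := by
    rw [hDD, sum_mul]
    exact sum_le_sum fun i _ => Nat.mul_le_mul_left _ (hu i)
  have hb2 : M < 256 * s * (M / (256 * s) + 1) := Nat.lt_mul_div_succ _ (by omega)
  have hgood : (T.filter (Good g M m s (M / (256 * s)))).card * (M / (256 * s)) ≤ ∑ t ∈ T, dg t :=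
    markov T _ _ _ fun z _ hz => hz.2.2.le.trans (dp_le _ _)
  have hsplit := card_filter_add_card_filter_not (s := T) (Good g M m s (M / (256 * s)))
  rw [eA] at hlow hmany
  simp only [eA'] at hsmall
  set n := ∑ t ∈ T, (M - wt g t) / m with hn
  set A := ∑ i, Ad g T M m i with hA
  set p := Fintype.card ι with hp'
  set DD := ∑ t ∈ T, dg t with hDD'
  set b := M / (256 * s) with hb
  set N := T.filter fun z => ¬ (M - wt g z) / m = 0 with hN
  have triv : m * DD ≤ 2 ^ 69 * (m * A + m * m) →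
      DD * ∑ i, ds g s m i + p * ∑ i, (∑ t ∈ T, t i) * ds g s m i ≤ 2 ^ 70 * (p * (m * A + m * m)) :=
    fun h => by
      have a1 := Nat.mul_le_mul_left DD hE
      have a2 := Nat.mul_le_mul_left p hE1
      have a3 := Nat.mul_le_mul_left p h
      linarith only [a1, a2, a3]
  have hμ : m * min n m ≤ m * m := Nat.mul_le_mul_left _ (min_le_right _ _)
  by_cases c1 : m ≤ 64 * n
  · refine triv ?_
    have a1 : m * DD ≤ 64 * min n m * DD := Nat.mul_le_mul_right _ (by omega)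
    linarith only [a1, hG, hμ, Nat.zero_le (m * A), Nat.zero_le (m * m)]
  rw [min_eq_left (show n ≤ m by omega)] at hG hμ
  by_cases c2 : DD ≤ 2 ^ 27 * A
  · refine triv ?_
    have := Nat.mul_le_mul_left m c2
    linarith only [this, Nat.zero_le (m * A), Nat.zero_le (m * m)]
  have hd : ∀ i, ∑ t ∈ T, t i ≤ 2 * n := fun i => by
    refine Nat.le_of_mul_le_mul_left ?_ hm0
    linarith only [Nat.mul_le_mul_left (∑ t ∈ T, t i) (hg i), hc i]
  have hD2 : DD ≤ p * (2 * n) := hDD ▸ sum_le_card_nsmul _ _ _ fun i _ => hd i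
  have hpn : 2 ^ 26 * A ≤ p * n := by linarith only [hD2, not_le.1 c2]
  have hMp : 16 * M ≤ p * m := by
    have a1 : (2 * p + 1) * (64 * n) ≤ (2 * p + 1) * m := Nat.mul_le_mul_left _ (by omega)
    have a2 : 2 ^ 15 * m ≤ p * m := Nat.mul_le_mul_right _ hp
    linarith only [a1, a2, hMn, Nat.zero_le m]
  have hD : ∀ y ∈ T, 2 * dg y ≤ p := fun y hy => by
    have a1 : dg y * m ≤ wt g y := by
      rw [dg, sum_mul]
      exact sum_le_sum fun i _ => Nat.mul_le_mul_left _ (hg i)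
    have a2 := hM y hy
    refine Nat.le_of_mul_le_mul_right ?_ hm0
    linarith only [a1, a2, hMp, Nat.zero_le M]
  have b2 : M ≤ 19 * (p * s) := by
    have := Nat.mul_le_mul_left p hms
    omega
  have b3 : 2 ^ 24 * ∑ t ∈ T.filter (fun t => ¬ s ≤ M - wt g t), (M - wt g t) / m ≤ n := by
    refine Nat.le_of_mul_le_mul_left ?_ (show 0 < p by omega)
    linarith only [hlow, hpn, Nat.zero_le A]
  have b4 := hmany b2 (by omega) (by omega)
  set S := univ.filter fun i => 4 * g i ≤ s with hS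
  have b5 : S.card * n ≤ 1920 * A := by
    rw [← smul_eq_mul, ← sum_const, hA, mul_sum]
    exact (sum_le_sum fun i hi => hsmall i (mem_filter.1 hi).2 b3 b4).trans
      (sum_le_sum_of_subset (subset_univ _))
  have b6 : ∑ t ∈ T, dp S t ≤ S.card * (2 * n) := by
    unfold dp
    rw [sum_comm]
    exact sum_le_card_nsmul _ _ _ fun i _ => hd i
  have b7 : ∀ t ∈ T, dp Sᶜ t * s ≤ 4 * M := fun t ht => by
    refine le_trans ?_ (Nat.mul_le_mul_left 4 (hM t ht))
    rw [dp, sum_mul, wt, mul_sum]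
    refine (sum_le_sum fun i hi => ?_).trans (sum_le_sum_of_subset (subset_univ _))
    have a1 : ¬ 4 * g i ≤ s := fun c => mem_compl.1 hi (mem_filter.2 ⟨mem_univ _, c⟩)
    linarith only [Nat.mul_le_mul_left (t i) (not_le.1 a1).le]
  have b8 : ∀ t ∈ T, dp Sᶜ t ≤ 1024 * (b + 1) := fun t ht =>
    Nat.le_of_mul_le_mul_right ((b7 t ht).trans (by linarith only [hb2])) (show 0 < s by omega)
  have b9 : DD ≤ 2048 * (m * (b + 1)) := by
    have a1 : ∑ t ∈ T, dp Sᶜ t ≤ T.card * (1024 * (b + 1)) := sum_le_card_nsmul _ _ _ b8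
    have a2 : DD = ∑ t ∈ T, dp S t + ∑ t ∈ T, dp Sᶜ t := by
      rw [← sum_add_distrib]
      exact sum_congr rfl fun t _ => (dp_compl S t).symm
    rw [hcard] at a1
    linarith only [a1, a2, b5, b6, not_le.1 c2, Nat.zero_le A]
  by_cases c3 : b = 0
  · refine triv ?_
    rw [c3] at b9
    linarith only [Nat.mul_le_mul_left m b9, Nat.zero_le (m * A), Nat.zero_le (m * m)]
  have hb0 : 0 < b := Nat.pos_of_ne_zero c3
  have d1 := hbad hD hb0
  have d2 : ∑ z ∈ N, dp Sᶜ z ≤ 2048 * b * n := by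
    refine le_trans (sum_le_sum fun z hz => ?_) (nontop_le T (fun _ => 2048 * b) _
      (fun _ => le_rfl) fun z => (M - wt g z) / m)
    have := b8 z (mem_filter.1 hz).1
    omega
  have d3 : ∑ z ∈ N, dg z ≤ 3840 * A + 2048 * b * n := by
    have a1 : ∑ z ∈ N, dp S z ≤ ∑ t ∈ T, dp S t := sum_le_sum_of_subset (filter_subset _ _)
    have a2 : ∑ z ∈ N, dg z = ∑ t ∈ N, dp S t + ∑ t ∈ N, dp Sᶜ t := by
      rw [← sum_add_distrib]
      exact sum_congr rfl fun t _ => (dp_compl S t).symm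
    linarith only [a1, a2, b5, b6, d2]
  have d4 := sum_le_sum fun i (_ : i ∈ (univ : Finset ι)) => hone hD i
  simp only [← mul_sum, sum_add_distrib, sum_const, card_univ, smul_eq_mul] at d4
  rw [sum_comm (s := univ) (t := N)] at d4
  change b * ∑ i, ds g s m i ≤ 2 * p * (A + ∑ z ∈ N, dg z) + b * (p * _) at d4
  generalize (T.filter fun z => ¬ Good g M m s b z).card = k at *
  generalize (T.filter (Good g M m s b)).card = k' at *
  generalize ∑ z ∈ N, dg z = DN at *
  generalize ∑ i, ds g s m i = E at *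
  generalize ∑ i, (∑ t ∈ T, t i) * ds g s m i = E1 at *
  obtain ⟨G, hG'⟩ : ∃ G, G = m * A + m * m := ⟨_, rfl⟩
  have e1 : b * m ≤ 3 * DD + 8 * m := by
    have a1 : b * (64 * n) ≤ b * m := Nat.mul_le_mul_left _ (by omega)
    rw [hcard] at hsplit
    have a2 : b * m = k' * b + b * k := by rw [← hsplit]; ring
    linarith only [a1, a2, hgood, d1, not_le.1 c2, Nat.zero_le A]
  have e2 : m * (b * n) ≤ 2 ^ 40 * G := by
    linarith only [Nat.mul_le_mul_left n e1, hG, hμ, hG', Nat.zero_le (m * A), Nat.zero_le (m * m)]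
  have e3 : m * DN ≤ 2 ^ 52 * G := by
    linarith only [Nat.mul_le_mul_left m d3, e2, hG', Nat.zero_le (m * A), Nat.zero_le (m * m)]
  have e4 : m * (b * k) ≤ 2 ^ 45 * G := by
    linarith only [Nat.mul_le_mul_left m d1, e2, hG', Nat.zero_le (m * A), Nat.zero_le (m * m)]
  have e5 : m * A ≤ G := by omega
  have e6 : m * (b * E) ≤ 2 ^ 54 * (p * G) := by
    have a1 := Nat.mul_le_mul_left m d4
    have a2 := Nat.mul_le_mul_left p e3
    have a3 := Nat.mul_le_mul_left p e4
    have a4 := Nat.mul_le_mul_left p e5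
    linarith only [a1, a2, a3, a4, Nat.zero_le (p * G)]
  have e7 : DD * E ≤ 2 ^ 66 * (p * G) := by
    have a1 : DD * E ≤ 4096 * (m * b) * E := Nat.mul_le_mul_right _
      (by linarith only [b9, Nat.mul_le_mul_left m hb0])
    linarith only [a1, e6]
  have e8 := Nat.mul_le_mul_left A hE
  have e9 := Nat.mul_le_mul_left p e3
  have e10 := Nat.mul_le_mul_left p e5
  rw [← hG']
  linarith only [hsp, e7, e8, e9, e10, Nat.zero_le (p * G)]

end Pool.Agent.MP_96f5a9_co.H80

end MrgPart2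

-- ======== part 3: formerly Pool.Agent.MP_96f5a9_co.h80.GwA
section MrgPart3

/-!
The weighted gain, first part: the composition test with the weight of the median generator.
-/

set_option autoImplicit false

namespace Pool.Agent.MP_96f5a9_co.H80

open Finset Function H51 H16 H93 H36

variable {ι : Type} [Fintype ι] [DecidableEq ι] {g : ι → ℕ} {T : Finset (ι → ℕ)} {m M : ℕ}

omit [Fintype ι] [DecidableEq ι] in
lemma dp_mono {P Q : Finset ι} (h : P ⊆ Q) (z : ι → ℕ) : dp P z ≤ dp Q z := sum_le_sum_of_subset h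

lemma parents' (P : Finset ι) (Z Y : Finset (ι → ℕ)) (φ : (ι → ℕ) → ℕ)
    (h : ∀ z ∈ Z, ∀ j ∈ P, 0 < z j → z - ee j ∈ Y) (hc : ∀ y ∈ Y, dp P y ≤ Fintype.card ι) :
    ∑ z ∈ Z, ∑ j ∈ P, z j * φ (z - ee j) ≤ 2 * Fintype.card ι * ∑ y ∈ Y, φ y := by
  rw [sum_comm, mul_sum]
  refine (sum_le_sum fun j hj =>
    shift_le Y Z j (fun k => k) rfl φ fun z hz => h z hz j hj).trans ?_
  rw [sum_comm]
  refine sum_le_sum fun y hy => ?_
  rw [← sum_mul, sum_add_distrib, sum_const, smul_eq_mul, mul_one]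
  have := card_le_univ P
  have := hc y hy
  exact Nat.mul_le_mul_right _ (by unfold dp at *; omega)

/-- The composition test with weights. -/
lemma test' (hT : ∀ x ∈ T, ∀ y, y ≤ x → y ∈ T) (P Q : Finset ι)
    (hP : Fintype.card ι ≤ 4 * P.card) (hQ : ∀ j ∈ Q, j ∉ P)
    (hD : ∀ y ∈ T, dp Q y ≤ Fintype.card ι) (v : (ι → ℕ) → ℕ) (k l : ℕ)
    (hv : ∀ y, k * v y ≤ l * ((M - wt g y) / m)) (L : ℕ) :
    k * ∑ z ∈ T, ∑ j ∈ Q, z j * (v (z - ee j) * (L - dp P z)) ≤
      8 * (l * (L * ∑ i, Ad g T M m i) +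
        k * ∑ z ∈ T, ∑ j ∈ P, z j * (v (z - ee j) * (L + 1 - dp P z))) := by
  set φ : (ι → ℕ) → ℕ := fun y => v y * (L - dp P y) with hφ
  have h1 := parents' Q T T φ (fun z hz j _ _ => down hT hz j) hD
  have h2 : ∑ _j ∈ P, k * ∑ y ∈ T, φ y ≤
      ∑ j ∈ P, (l * (L * Ad g T M m j) + k * ∑ z ∈ T, z j * φ (z - ee j)) := by
    refine sum_le_sum fun j _ => ?_
    rw [← sum_filter_add_sum_filter_not T (fun y => y + ee j ∉ T), Ad, mul_add, mul_sum,
      mul_sum _ _ L, mul_sum _ _ l]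
    refine add_le_add (sum_le_sum fun y _ => ?_) (Nat.mul_le_mul_left _
      (le_trans (sum_le_sum fun y _ => ?_)
      (edge_ge _ T j φ fun y hy => not_not.1 (mem_filter.1 hy).2)))
    · calc k * φ y = k * v y * (L - dp P y) := by simp only [hφ, mul_assoc]
        _ ≤ l * ((M - wt g y) / m) * L := Nat.mul_le_mul (hv y) (Nat.sub_le _ _)
        _ = l * (L * (1 * ((M - wt g y) / m))) := by ring
        _ ≤ _ := by gcongr; omega
    · exact Nat.le_mul_of_pos_left _ (Nat.succ_pos _)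
  rw [sum_const, smul_eq_mul, sum_add_distrib, ← mul_sum, ← mul_sum, ← mul_sum, sum_comm] at h2
  have h3 : l * (L * ∑ j ∈ P, Ad g T M m j) ≤ l * (L * ∑ i, Ad g T M m i) :=
    Nat.mul_le_mul_left _ (Nat.mul_le_mul_left _ (sum_le_sum_of_subset (subset_univ _)))
  have h4 : ∑ z ∈ T, ∑ j ∈ Q, z j * (v (z - ee j) * (L - dp P z)) =
      ∑ z ∈ T, ∑ j ∈ Q, z j * φ (z - ee j) :=
    sum_congr rfl fun z _ => sum_congr rfl fun j hj => by
      simp only [hφ, dp_not (hQ j hj)]
  have h5 : ∑ z ∈ T, ∑ j ∈ P, z j * (v (z - ee j) * (L + 1 - dp P z)) =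
      ∑ z ∈ T, ∑ j ∈ P, z j * φ (z - ee j) :=
    sum_congr rfl fun z _ => sum_congr rfl fun j hj => by
      rcases Nat.eq_zero_or_pos (z j) with h | h
      · simp [h]
      · simp only [hφ, ← dp_mem hj h, Nat.add_sub_add_right]
  rw [h4, h5]
  have h6 := Nat.mul_le_mul_left k h1
  have h7 := Nat.mul_le_mul_right (k * ∑ y ∈ T, φ y) hP
  linarith only [h2, h3, h6, h7]

/-- The small generators. -/
def Sm (g : ι → ℕ) (s : ℕ) : Finset ι := univ.filter fun i => 4 * g i ≤ s

/-- The generators below the median that are not small. -/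
def Lo (g : ι → ℕ) (s : ℕ) : Finset ι := univ.filter fun i => s < 4 * g i ∧ g i ≤ s

/-- The generators above the median. -/
def Up (g : ι → ℕ) (s : ℕ) : Finset ι := univ.filter fun i => s ≤ g i

/-- The points below the top layer. -/
def Nt (g : ι → ℕ) (T : Finset (ι → ℕ)) (M m : ℕ) : Finset (ι → ℕ) :=
  T.filter fun z => ¬ (M - wt g z) / m = 0

lemma test_low' (hm : 0 < m) (hg : ∀ i, m ≤ g i) (hT : ∀ x ∈ T, ∀ y, y ≤ x → y ∈ T)
    (hcard : T.card = m) (hM : ∀ x ∈ T, wt g x ≤ M) {s c : ℕ} (hms : m ≤ s)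
    (hs : Fintype.card ι ≤ 4 * (Lo g s).card)
    (hD : ∀ y ∈ T, dp (Sm g s)ᶜ y ≤ Fintype.card ι) (hc : 0 < c) (hcM : 256 * (c * s) ≤ M) :
    s * ∑ z ∈ T.filter (fun z => (M - wt g z) / m = 0), (2 * c - dp (Lo g s) z) ≤
      m * ∑ i, Ad g T M m i + c * (m * ∑ t ∈ T, (M - wt g t) / m) + c * (s * (Nt g T M m).card) +
        s * m + ∑ z ∈ T, ∑ j ∈ Sm g s, z j * g j := by
  set B := Lo g s with hB
  set Q := univ.filter fun i => s < g i with hQ
  have h0 := test' (g := g) (M := M) (m := m) hT B Q hs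
    (fun j hj c => by have := (mem_filter.1 hj).2; have := (mem_filter.1 c).2; omega)
    (fun y hy => (dp_mono (fun j hj => mem_compl.2 fun c => by
      have := (mem_filter.1 hj).2; have := (mem_filter.1 c).2; omega) y).trans (hD y hy))
    (fun y => (M - wt g y) / m) 1 1 (fun _ => le_rfl) (2 * c)
  have hsc : s ≤ c * s := Nat.le_mul_of_pos_left _ hc
  have h1 : 253 * (c * s) * ∑ z ∈ T.filter (fun z => (M - wt g z) / m = 0), (2 * c - dp B z) ≤
      ∑ z ∈ T, (2 * m * ∑ j ∈ Q, z j * ((M - wt g (z - ee j)) / m * (2 * c - dp B z)) +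
        2 * c * ∑ j ∈ Sm g s, z j * g j) := by
    rw [mul_sum]
    refine (sum_le_sum fun z hz => ?_).trans (sum_le_sum_of_subset (filter_subset _ _))
    obtain ⟨a1, a2⟩ := mem_filter.1 hz
    by_cases a3 : 2 * c ≤ dp B z
    · simp [Nat.sub_eq_zero_of_le a3]
    have a4 : M - wt g z < m := (Nat.div_eq_zero_iff_lt hm).1 a2
    have a5 : ∑ j ∈ B, z j * g j ≤ dp B z * s := by
      rw [dp, sum_mul]
      exact sum_le_sum fun j hj => Nat.mul_le_mul_left _ (mem_filter.1 hj).2.2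
    have a6 : ∑ j ∈ Q, z j * g j ≤ 2 * m * ∑ j ∈ Q, z j * ((M - wt g (z - ee j)) / m) := by
      rw [mul_sum]
      refine sum_le_sum fun j _ => ?_
      rcases Nat.eq_zero_or_pos (z j) with h | h
      · simp [h]
      have b1 := wt_sub (g := g) h
      have b2 := hM z a1
      have b3 := hg j
      have b4 := le_two_floor hm (show m ≤ M - wt g (z - ee j) by omega)
      calc z j * g j ≤ z j * (2 * (m * ((M - wt g (z - ee j)) / m))) :=
            Nat.mul_le_mul_left _ (by omega)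
        _ = _ := by ring
    have a7 : wt g z ≤ ∑ j ∈ B, z j * g j + ∑ j ∈ Q, z j * g j + ∑ j ∈ Sm g s, z j * g j := by
      simp only [hB, hQ, Lo, Sm, sum_filter, ← sum_add_distrib, wt]
      refine sum_le_sum fun j _ => ?_
      split_ifs <;> omega
    have a8 : dp B z * s ≤ 2 * c * s := Nat.mul_le_mul_right _ (by omega)
    simp only [← mul_assoc (z _), ← sum_mul]
    rw [← mul_assoc (2 * m)]
    rw [mul_assoc 2 c] at a8
    have a9 : 253 * (c * s) ≤ 2 * m * ∑ j ∈ Q, z j * ((M - wt g (z - ee j)) / m) +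
      ∑ j ∈ Sm g s, z j * g j := by omega
    have a10 := Nat.mul_le_mul_right (2 * c - dp B z) a9
    have a11 := Nat.mul_le_mul_left (∑ j ∈ Sm g s, z j * g j) (Nat.sub_le (2 * c) (dp B z))
    linarith only [a10, a11]
  have h2 : m * ∑ z ∈ T, ∑ j ∈ B, z j * ((M - wt g (z - ee j)) / m * (2 * c + 1 - dp B z)) ≤
      ∑ z ∈ T, (2 * c * ((2 * c + 1) * (m * ((M - wt g z) / m))) +
        2 * c * (2 * s * (2 * c - dp B z)) + 2 * c * (2 * s)) := by
    rw [mul_sum]
    refine sum_le_sum fun z hz => ?_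
    have a1 : m * ∑ j ∈ B, z j * ((M - wt g (z - ee j)) / m * (2 * c + 1 - dp B z)) ≤
        dp B z * (2 * c + 1 - dp B z) * (m * ((M - wt g z) / m) + 2 * s) := by
      rw [mul_sum, mul_assoc (dp B z), dp, sum_mul]
      refine sum_le_sum fun j hj => ?_
      rcases Nat.eq_zero_or_pos (z j) with h | h
      · simp [h]
      have b1 := wt_sub (g := g) h
      have b2 := Nat.mul_div_le (M - wt g (z - ee j)) m
      have b3 := Nat.div_add_mod (M - wt g z) m
      have b4 := Nat.mod_lt (M - wt g z) hm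
      have b5 := (mem_filter.1 hj).2.2
      have b6 : m * ((M - wt g (z - ee j)) / m) ≤ m * ((M - wt g z) / m) + 2 * s := by omega
      calc _ = z j * ((2 * c + 1 - dp B z) * (m * ((M - wt g (z - ee j)) / m))) := by
            unfold dp; ring
        _ ≤ _ := by unfold dp; gcongr
    have a2 := Nat.mul_le_mul_right (m * ((M - wt g z) / m) + 2 * s) (cut (2 * c) (dp B z))
    have a3 : (2 * c - dp B z + 1) * (m * ((M - wt g z) / m)) ≤
        (2 * c + 1) * (m * ((M - wt g z) / m)) := Nat.mul_le_mul_right _ (by omega)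
    have a4 := Nat.mul_le_mul_left (2 * c) a3
    generalize m * ((M - wt g z) / m) = x at *
    generalize 2 * c - dp B z = k at *
    nlinarith
  have h3 : ∑ z ∈ T.filter (fun z => ¬ (M - wt g z) / m = 0), (2 * c - dp B z) ≤
      (Nt g T M m).card * (2 * c) := sum_le_card_nsmul _ _ _ fun _ _ => Nat.sub_le _ _
  have h4 := sum_filter_add_sum_filter_not T (fun z => (M - wt g z) / m = 0)
    fun z => 2 * c - dp B z
  simp only [sum_add_distrib, ← mul_sum, sum_const, hcard, smul_eq_mul] at h1 h2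
  generalize ∑ z ∈ T.filter (fun z => (M - wt g z) / m = 0), (2 * c - dp B z) = X at *
  generalize ∑ z ∈ T.filter (fun z => ¬ (M - wt g z) / m = 0), (2 * c - dp B z) = X' at *
  generalize ∑ z ∈ T, (2 * c - dp B z) = X'' at *
  generalize ∑ z ∈ T, ∑ j ∈ B, z j * ((M - wt g (z - ee j)) / m * (2 * c + 1 - dp B z)) = U at *
  generalize ∑ z ∈ T, ∑ j ∈ Q, z j * ((M - wt g (z - ee j)) / m * (2 * c - dp B z)) = V at *
  generalize ∑ t ∈ T, (M - wt g t) / m = n at *
  generalize ∑ i, Ad g T M m i = A at *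
  generalize ∑ z ∈ T, ∑ j ∈ Sm g s, z j * g j = W at *
  generalize (Nt g T M m).card = N at *
  subst h4
  have c1 := Nat.mul_le_mul_left (2 * m) h0
  have c3 : c * ((2 * c + 1) * (m * n)) ≤ c * ((3 * c) * (m * n)) := by gcongr; omega
  have c4 := Nat.mul_le_mul_left (c * s) h3
  refine Nat.le_of_mul_le_mul_left ?_ (show 0 < 128 * c by omega)
  linarith only [c1, c3, c4, h1, h2, Nat.zero_le (c * (m * A)), Nat.zero_le (c * (s * m)),
    Nat.zero_le (c * (c * (m * n))), Nat.zero_le (c * (s * X)), Nat.zero_le (c * W)]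

/-- Top points with many factors just below and above the median. -/
def Good' (g : ι → ℕ) (M m s b : ℕ) (z : ι → ℕ) : Prop :=
  (M - wt g z) / m = 0 ∧ 64 * b < dp (Lo g s) z ∧ b < dp (Up g s) z

instance (g : ι → ℕ) (M m s b : ℕ) : DecidablePred (Good' g M m s b) := fun _ => by
  unfold Good'; infer_instance

omit [Fintype ι] [DecidableEq ι] in
lemma le_eight {m s x : ℕ} (hm : 0 < m) (h : m ≤ x) (h' : s ≤ 4 * x) : s ≤ 8 * m * (x / m) := by
  have := le_two_floor hm h
  linarith only [this, h']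

theorem bad_le' (hm : 0 < m) (hg : ∀ i, m ≤ g i) (hT : ∀ x ∈ T, ∀ y, y ≤ x → y ∈ T)
    (hcard : T.card = m) (hM : ∀ x ∈ T, wt g x ≤ M) {s b : ℕ} (hms : m ≤ s)
    (hs : Fintype.card ι ≤ 4 * (Lo g s).card) (hs' : Fintype.card ι ≤ 2 * (Up g s).card)
    (hD : ∀ y ∈ T, dp (Sm g s)ᶜ y ≤ Fintype.card ι) (hb : 0 < b) (hbM : 2 ^ 14 * (b * s) ≤ M) :
    s * (b * (T.filter fun z => ¬ Good' g M m s b z).card) ≤
      9 * (m * ∑ i, Ad g T M m i) + 3 * (b * (m * ∑ t ∈ T, (M - wt g t) / m)) +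
        6 * (b * (s * (Nt g T M m).card)) + 2 * (s * m) + ∑ z ∈ T, ∑ j ∈ Sm g s, z j * g j := by
  have h0 := test_low' hm hg hT hcard hM hms hs hD (c := 64 * b) (by omega)
    (by linarith only [hbM])
  set B := Lo g s with hB
  set U := Up g s with hU
  set Q := univ.filter fun i => s < 4 * g i ∧ g i < s with hQ
  set v : (ι → ℕ) → ℕ := fun y => if m ≤ M - wt g y ∧ s ≤ 4 * (M - wt g y) then 1 else 0 with hv
  have h1 := test' (g := g) (M := M) (m := m) hT U Q (by omega)
    (fun j hj c => by have := (mem_filter.1 hj).2; have := (mem_filter.1 c).2; omega)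
    (fun y hy => (dp_mono (fun j hj => mem_compl.2 fun c => by
      have := (mem_filter.1 hj).2; have := (mem_filter.1 c).2; omega) y).trans (hD y hy))
    v s (8 * m) (fun y => by
      simp only [hv]
      split_ifs with c
      · rw [mul_one]; exact le_eight hm c.1 c.2
      · exact Nat.zero_le _) (2 * b)
  set G : (ι → ℕ) → Prop := fun z => (M - wt g z) / m = 0 ∧ 64 * b < dp B z with hG
  have h2 : 32 * b * ∑ z ∈ T.filter G, (2 * b - dp U z) ≤
      ∑ z ∈ T, ∑ j ∈ Q, z j * (v (z - ee j) * (2 * b - dp U z)) := by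
    rw [mul_sum]
    refine (sum_le_sum fun z hz => ?_).trans (sum_le_sum_of_subset (filter_subset _ _))
    obtain ⟨a1, -, a2⟩ := mem_filter.1 hz
    by_cases a3 : 2 * b ≤ dp U z
    · simp [Nat.sub_eq_zero_of_le a3]
    have a4 : dp B z ≤ dp U z + dp Q z := by
      simp only [hB, hQ, hU, Lo, Up, dp, sum_filter, ← sum_add_distrib]
      refine sum_le_sum fun j _ => ?_
      split_ifs <;> omega
    calc _ ≤ dp Q z * (2 * b - dp U z) := Nat.mul_le_mul_right _ (by omega)
      _ ≤ _ := by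
        rw [dp, sum_mul]
        refine sum_le_sum fun j hj => ?_
        rcases Nat.eq_zero_or_pos (z j) with h | h
        · simp [h]
        have b1 := wt_sub (g := g) h
        have b2 := hM z a1
        have b3 := hg j
        have b4 := (mem_filter.1 hj).2
        simp only [hv]
        rw [if_pos ⟨by omega, by omega⟩, one_mul]
  have h3 : ∑ z ∈ T, ∑ j ∈ U, z j * (v (z - ee j) * (2 * b + 1 - dp U z)) ≤
      ∑ z ∈ T, 2 * b * (2 * b - dp U z + 1) := by
    refine sum_le_sum fun z _ => le_trans ?_ (cut (2 * b) (dp U z))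
    rw [dp, sum_mul]
    refine sum_le_sum fun j _ => Nat.mul_le_mul_left _
      ((Nat.mul_le_mul_right _ (?_ : _ ≤ 1)).trans_eq (one_mul _))
    simp only [hv]
    split_ifs <;> omega
  simp only [← mul_sum, sum_add_distrib, sum_const, hcard, smul_eq_mul, mul_one] at h3
  have h4 := sum_filter_add_sum_filter_not T G fun z => 2 * b - dp U z
  have h5 : ∑ z ∈ T.filter (fun z => ¬ G z), (2 * b - dp U z) ≤
      (T.filter fun z => ¬ G z).card * (2 * b) :=
    sum_le_card_nsmul _ _ _ fun _ _ => Nat.sub_le _ _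
  have h6 : (T.filter fun z => ¬ G z).card * (64 * b) ≤
      ∑ z ∈ T.filter (fun z => (M - wt g z) / m = 0), (2 * (64 * b) - dp B z) +
        (Nt g T M m).card * (64 * b) := by
    rw [← smul_eq_mul (card (Nt g T M m)), ← sum_const, Nt, sum_filter, sum_filter,
      ← sum_add_distrib]
    refine markov T _ _ _ fun z _ hz => ?_
    by_cases a : (M - wt g z) / m = 0
    · have : ¬ 64 * b < dp B z := fun c => hz ⟨a, c⟩
      rw [if_pos a]; omega
    · rw [if_neg a, if_pos a]; omega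
  have h7 : (T.filter fun z => ¬ Good' g M m s b z).card * b ≤
      ∑ z ∈ T.filter G, (2 * b - dp U z) + (T.filter fun z => ¬ G z).card * b := by
    rw [← smul_eq_mul (card (T.filter fun z => ¬ G z)), ← sum_const, sum_filter, sum_filter,
      ← sum_add_distrib]
    refine markov T _ _ _ fun z _ hz => ?_
    by_cases a : G z
    · have : ¬ b < dp U z := fun c => hz ⟨a.1, a.2, c⟩
      rw [if_pos a]; omega
    · rw [if_neg a, if_pos a]; omega
  generalize ∑ z ∈ T.filter G, (2 * b - dp U z) = X at *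
  generalize ∑ z ∈ T.filter (fun z => ¬ G z), (2 * b - dp U z) = X' at *
  generalize ∑ z ∈ T, (2 * b - dp U z) = X'' at *
  generalize (T.filter fun z => ¬ G z).card = k at *
  generalize ∑ i, Ad g T M m i = A at *
  subst h4
  have c0 := Nat.mul_le_mul_left s h2
  have c0' := Nat.mul_le_mul_left s h3
  have c1 : b * (s * X) ≤ b * (8 * (m * A) + s * X' + s * m) := by
    linarith only [c0, c0', h1]
  have c2 := Nat.le_of_mul_le_mul_left c1 hb
  linarith only [c2, Nat.mul_le_mul_left s h5, Nat.mul_le_mul_left s h6, Nat.mul_le_mul_left s h7,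
    h0, Nat.zero_le (m * A), Nat.zero_le (s * m), Nat.zero_le (∑ z ∈ T, ∑ j ∈ Sm g s, z j * g j)]

end Pool.Agent.MP_96f5a9_co.H80

end MrgPart3

-- ======== part 4: formerly Pool.Agent.MP_96f5a9_co.h80.Gw
section MrgPart4

/-!
The weighted gain: blocked directions at non-top points carry a fixed share of the conductor as soon
as the generators are spread or the non-top layers are thick.
-/

set_option autoImplicit false

namespace Pool.Agent.MP_96f5a9_co.H80

open Finset Function H51 H16 H93 H36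

variable {ι : Type} [Fintype ι] [DecidableEq ι] {g : ι → ℕ} {T : Finset (ι → ℕ)} {m M : ℕ}

/-- The line identity. -/
lemma line_le (hm : 0 < m) (hg : ∀ i, m ≤ g i) (hT : ∀ x ∈ T, ∀ y, y ≤ x → y ∈ T)
    (hM : ∀ x ∈ T, wt g x ≤ M) (i : ι) :
    m * ∑ t ∈ T, (M - wt g t) / m ≤ m * Ad g T M m i + 2 * ((∑ t ∈ T, t i) * g i) := by
  have e : ∑ t ∈ T, gp g T M i t / m = Ad g T M m i := sum_top hT i fun y => (M - wt g y) / m
  have h1 : ∑ t ∈ T, (m * ((M - wt g t) / m) + 2 * (t i * g i)) ≤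
      ∑ t ∈ T, (m * (gp g T M i t / m) + 2 * (ht T i t * g i)) := by
    refine sum_le_sum fun t h => ?_
    have a1 := gp_add hM h i
    rcases (le_ht i h).eq_or_lt with c | c
    · rw [← c] at a1 ⊢
      rw [show gp g T M i t = M - wt g t by omega]
    · have a2 := Nat.mul_le_mul_right (g i) (Nat.succ_le_of_lt c)
      have a3 := Nat.mul_div_le (M - wt g t) m
      have a4 := Nat.div_add_mod (gp g T M i t) m
      have a5 := Nat.mod_lt (gp g T M i t) hm
      have a6 := hg i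
      rw [Nat.succ_mul] at a2
      omega
  simp only [sum_add_distrib, ← mul_sum, ← sum_mul] at h1
  rw [sum_ht hT i, e] at h1
  linarith only [h1]

/-- The gain from thick non-top layers. -/
theorem gw_tau (hm : 2 ≤ m) (hg : ∀ i, m ≤ g i) (hT : ∀ x ∈ T, ∀ y, y ≤ x → y ∈ T)
    (hcard : T.card = m) (hinj : ∀ x ∈ T, ∀ y ∈ T, wt g x ≡ wt g y [MOD m] → x = y)
    (hM : ∀ x ∈ T, wt g x ≤ M) (hp : 2 ^ 15 ≤ Fintype.card ι) {s : ℕ}
    (hs1 : Fintype.card ι ≤ 2 * (univ.filter fun i => g i ≤ s).card)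
    (hn : Fintype.card ι * ∑ t ∈ T, (M - wt g t) / m ≤ M) :
    M * (m * M) ≤ 2 ^ 44 * (s * ((Fintype.card ι * m + M) * ∑ i, Ad g T M m i) + m * (s * M)) := by
  have hm0 : 0 < m := by omega
  have hG : min (∑ t ∈ T, (M - wt g t) / m) m * ∑ t ∈ T, dg t ≤ 2 ^ 38 * (m * ∑ i, Ad g T M m i) +
    2 ^ 19 * (m * min (∑ t ∈ T, (M - wt g t) / m) m) := gain_dead hm hg hT hcard hinj hM hp
  have hMn := top_le hm0 hg hT hcard hM
  have hms : m ≤ s := by
    obtain ⟨i, hi⟩ := card_pos.1 (show 0 < (univ.filter fun i => g i ≤ s).card by omega)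
    exact (hg i).trans (mem_filter.1 hi).2
  have hDD : ∑ t ∈ T, dg t = ∑ i, ∑ t ∈ T, t i := sum_comm
  have h1 : ∑ _i ∈ univ.filter (fun i => g i ≤ s), m * ∑ t ∈ T, (M - wt g t) / m ≤
      ∑ i, (m * Ad g T M m i + 2 * ((∑ t ∈ T, t i) * s)) :=
    (sum_le_sum fun i hi => (line_le hm0 hg hT hM i).trans (by
      have := (mem_filter.1 hi).2
      gcongr)).trans (sum_le_sum_of_subset (subset_univ _))
  simp only [sum_add_distrib, ← mul_sum, ← sum_mul, sum_const, smul_eq_mul, ← hDD] at h1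
  have hD2 : ∑ t ∈ T, dg t ≤ Fintype.card ι * (2 * ∑ t ∈ T, (M - wt g t) / m) :=
    hDD ▸ sum_le_card_nsmul _ _ _ fun i _ => Nat.le_of_mul_le_mul_left (by
      linarith only [Nat.mul_le_mul_left (∑ t ∈ T, t i) (hg i), coord_le hm0 hg hT hM i]) hm0
  generalize ∑ t ∈ T, (M - wt g t) / m = n at *
  generalize ∑ i, Ad g T M m i = A at *
  generalize ∑ t ∈ T, dg t = DD at *
  generalize (univ.filter fun i => g i ≤ s).card = k at *
  generalize Fintype.card ι = p at *
  have a0 : n ≤ p * n := Nat.le_mul_of_pos_left _ (by omega)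
  have a1 : M ≤ 3 * (p * n) + m := by linarith only [hMn, a0]
  have a2 : m * M ≤ 6 * (m * A) + 12 * (s * DD) + m * m := by
    linarith only [Nat.mul_le_mul_left m a1, h1, Nat.mul_le_mul_right (m * n) hs1]
  have a3 := Nat.mul_le_mul_left M a2
  have a4 := Nat.mul_le_mul_right (M * A) hms
  have a5 := Nat.mul_le_mul_right (m * M) hms
  rcases le_total m n with c | c
  · rw [min_eq_right c] at hG
    have b1 : DD ≤ 2 ^ 38 * A + 2 ^ 19 * m :=
      Nat.le_of_mul_le_mul_left (by linarith only [hG]) hm0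
    linarith only [a3, a4, a5, Nat.mul_le_mul_left (M * s) b1, Nat.zero_le (s * (M * A)),
      Nat.zero_le (m * (s * M)), Nat.zero_le (s * (p * m * A))]
  · rw [min_eq_left c] at hG
    have b1 := Nat.mul_le_mul_left (s * DD) a1
    have b2 := Nat.mul_le_mul_left (s * p) hG
    have b3 := Nat.mul_le_mul_left (s * m) hn
    have b4 := Nat.mul_le_mul_left (s * m) hD2
    linarith only [a3, a4, a5, b1, b2, b3, b4, Nat.zero_le (s * (M * A)),
      Nat.zero_le (m * (s * M)), Nat.zero_le (s * (p * m * A))]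

/-- Good points in a window, and their parents. -/
lemma count' {b u : ℕ} (hcard : T.card = m) (G : (ι → ℕ) → Prop) [DecidablePred G]
    (P : Finset ι) (hD : ∀ y ∈ T, dp P y ≤ Fintype.card ι)
    (W : (ι → ℕ) → Prop) [DecidablePred W] (Y : Finset (ι → ℕ)) (hY : Y ⊆ T)
    (hu : u ≤ m) (h1 : ((T.filter G).filter fun z => ¬ W z).card ≤ m - u)
    (h2 : ∀ z, G z → b ≤ dp P z)
    (h3 : ∀ z ∈ T, G z → W z → ∀ j ∈ P, 0 < z j → z - ee j ∈ Y) :
    b * u ≤ 2 * Fintype.card ι * Y.card + b * (T.filter fun z => ¬ G z).card := by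
  have a1 := card_filter_add_card_filter_not (s := T) G
  have a2 := card_filter_add_card_filter_not (s := T.filter G) W
  have a3 := parents' P ((T.filter G).filter W) Y (fun _ => 1)
    (fun z hz => h3 z (mem_filter.1 (mem_filter.1 hz).1).1
      (mem_filter.1 (mem_filter.1 hz).1).2 (mem_filter.1 hz).2) fun y hy => hD y (hY hy)
  have a4 := card_nsmul_le_sum ((T.filter G).filter W) (dp P) b
    fun z hz => h2 z (mem_filter.1 (mem_filter.1 hz).1).2
  simp only [mul_one, sum_const, smul_eq_mul] at a3 a4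
  have a5 : u ≤ ((T.filter G).filter W).card + (T.filter fun z => ¬ G z).card := by omega
  have a6 := Nat.mul_le_mul_left b a5
  unfold dp at a4
  linarith only [a3, a4, a6]

lemma card_le_Ad' (hm : 0 < m) (s : ℕ) (i : ι) (Y : Finset (ι → ℕ))
    (h : ∀ y ∈ Y, y ∈ T ∧ y + ee i ∉ T ∧ m ≤ M - wt g y ∧ s ≤ 4 * (M - wt g y)) :
    s * Y.card ≤ 8 * m * Ad g T M m i := by
  rw [Ad, mul_sum, mul_comm s, ← smul_eq_mul, ← sum_const]
  refine (sum_le_sum fun y hy => ?_).trans (sum_le_sum_of_subset fun y hy =>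
    mem_filter.2 ⟨(h y hy).1, (h y hy).2.1⟩)
  exact (le_eight hm (h y hy).2.2.1 (h y hy).2.2.2).trans
    (Nat.mul_le_mul_left _ (Nat.le_mul_of_pos_left _ (Nat.succ_pos _)))

/-- The weighted estimate for one direction. -/
lemma one_dir' (hm : 0 < m) (hg : ∀ i, m ≤ g i) (hT : ∀ x ∈ T, ∀ y, y ≤ x → y ∈ T)
    (hcard : T.card = m) (hinj : ∀ x ∈ T, ∀ y ∈ T, wt g x ≡ wt g y [MOD m] → x = y)
    (hM : ∀ x ∈ T, wt g x ≤ M) {s : ℕ} (hs : 0 < s)
    (hD : ∀ y ∈ T, dp (Sm g s)ᶜ y ≤ Fintype.card ι) (b : ℕ) (i : ι) :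
    s * (b * ds g s m i) ≤ 2 * Fintype.card ι *
      (8 * m * Ad g T M m i + s * ∑ z ∈ Nt g T M m, z i) +
      s * (b * (T.filter fun z => ¬ Good' g M m s b z).card) := by
  have hu : ds g s m i ≤ m := min_le_right _ _
  have hu' : ds g s m i ≤ g i - s + (s - g i) := min_le_left _ _
  have htop : ∀ z, Good' g M m s b z → M - wt g z < m := fun z hz =>
    (Nat.div_eq_zero_iff_lt hm).1 hz.1
  have hsub : ∀ W : (ι → ℕ) → Prop, ∀ [DecidablePred W],
      (T.filter (Good' g M m s b)).filter W ⊆ T := fun W _ =>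
    (filter_subset _ _).trans (filter_subset _ _)
  have key : ∀ Y : Finset (ι → ℕ), b * ds g s m i ≤ 2 * Fintype.card ι * Y.card +
      b * (T.filter fun z => ¬ Good' g M m s b z).card →
      s * Y.card ≤ 8 * m * Ad g T M m i + s * ∑ z ∈ Nt g T M m, z i →
      s * (b * ds g s m i) ≤ 2 * Fintype.card ι *
      (8 * m * Ad g T M m i + s * ∑ z ∈ Nt g T M m, z i) +
      s * (b * (T.filter fun z => ¬ Good' g M m s b z).card) := fun Y a1 a2 => by
    linarith only [Nat.mul_le_mul_left s a1, Nat.mul_le_mul_left (2 * Fintype.card ι) a2]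
  by_cases hi : s ≤ g i
  · refine key _ (count' hcard _ (Lo g s) (fun y hy => (dp_mono (fun j hj => mem_compl.2 fun c => by
      have := (mem_filter.1 hj).2; have := (mem_filter.1 c).2; omega) y).trans (hD y hy))
      (fun z => M - wt g z < ds g s m i)
      (T.filter fun y => m ≤ M - wt g y ∧ s ≤ 4 * (M - wt g y) ∧ M - wt g y < g i)
      (filter_subset _ _) hu
      (card_window hinj hM _ (hsub _) _ _ fun z hz => ⟨not_lt.1 (mem_filter.1 hz).2,
        htop z (mem_filter.1 (mem_filter.1 hz).1).2⟩)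
      (fun z hz => by have := hz.2.1; omega) fun z hz _ hw j hj h => ?_) ?_
    · have b1 := wt_sub (g := g) h
      have b2 := hM z hz
      have b3 := hg j
      have b4 := (mem_filter.1 hj).2
      exact mem_filter.2 ⟨down hT hz j, by omega, by omega, by omega⟩
    · refine (card_le_Ad' hm s i _ fun y hy => ?_).trans (Nat.le_add_right _ _)
      obtain ⟨a1, a2, a3, a4⟩ := mem_filter.1 hy
      refine ⟨a1, fun c => ?_, a2, a3⟩
      have := hM _ c
      rw [wt_ee] at this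
      omega
  · refine key _ (count' hcard _ (Up g s) (fun y hy => (dp_mono (fun j hj => mem_compl.2 fun c => by
      have := (mem_filter.1 hj).2; have := (mem_filter.1 c).2; omega) y).trans (hD y hy))
      (fun z => m - ds g s m i ≤ M - wt g z)
      (T.filter fun y => m + g i ≤ M - wt g y ∧ s ≤ M - wt g y) (filter_subset _ _) hu
      ((card_window hinj hM _ (hsub _) 0 _ fun z hz => ⟨Nat.zero_le _,
        not_le.1 (mem_filter.1 hz).2⟩).trans (Nat.sub_zero _).le)
      (fun z hz => hz.2.2.le) fun z hz _ hw j hj h => ?_) ?_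
    · have b1 := wt_sub (g := g) h
      have b2 := hM z hz
      have b4 := (mem_filter.1 hj).2
      exact mem_filter.2 ⟨down hT hz j, by omega, by omega⟩
    · rw [← card_filter_add_card_filter_not (fun y => y + ee i ∉ T), mul_add]
      refine add_le_add (card_le_Ad' hm s i _ fun y hy => ?_) (Nat.mul_le_mul_left _ ?_)
      · obtain ⟨a1, a2⟩ := mem_filter.1 hy
        have := (mem_filter.1 a1).2
        exact ⟨(mem_filter.1 a1).1, a2, by omega, by omega⟩
      · have := edge_ge ((T.filter fun y => m + g i ≤ M - wt g y ∧ s ≤ M - wt g y).filter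
            fun y => ¬ (y + ee i ∉ T)) (Nt g T M m) i (fun _ => 1)
          fun y hy => mem_filter.2 ⟨not_not.1 (mem_filter.1 hy).2, by
            have := (mem_filter.1 (mem_filter.1 hy).1).2
            rw [wt_ee]
            exact (Nat.div_pos (by omega) hm).ne'⟩
        simp only [mul_one] at this
        rw [card_eq_sum_ones]
        exact (sum_le_sum fun _ _ => Nat.succ_pos _).trans this

/-- The number of non-top points. -/
lemma nt_le (hm : 0 < m) :
    Fintype.card ι * (Nt g T M m).card ≤ ∑ i, Ad g T M m i + ∑ t ∈ T, dg t := by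
  have h2 : ∑ _i : ι, (Nt g T M m).card ≤ ∑ i, (Ad g T M m i + ∑ t ∈ T, t i) := by
    refine sum_le_sum fun i _ => ?_
    rw [← card_filter_add_card_filter_not (fun y => y + ee i ∉ T)]
    refine add_le_add (card_le_Ad hm i _ fun y hy => ?_) ?_
    · obtain ⟨a1, a2⟩ := mem_filter.1 hy
      exact ⟨(mem_filter.1 a1).1, a2, not_lt.1 fun c =>
        (mem_filter.1 a1).2 ((Nat.div_eq_zero_iff_lt hm).2 c)⟩
    · have := edge_ge ((Nt g T M m).filter fun y => ¬ (y + ee i ∉ T)) T i (fun _ => 1)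
        fun y hy => not_not.1 (mem_filter.1 hy).2
      simp only [mul_one] at this
      rw [card_eq_sum_ones]
      exact (sum_le_sum fun _ _ => Nat.succ_pos _).trans this
  rw [sum_const, card_univ, smul_eq_mul, sum_add_distrib, sum_comm (s := univ) (t := T)] at h2
  exact h2

/-- The gain from spread generators. -/
theorem gw_e (hm : 2 ≤ m) (hg : ∀ i, m ≤ g i) (hT : ∀ x ∈ T, ∀ y, y ≤ x → y ∈ T)
    (hcard : T.card = m) (hinj : ∀ x ∈ T, ∀ y ∈ T, wt g x ≡ wt g y [MOD m] → x = y)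
    (hM : ∀ x ∈ T, wt g x ≤ M) (hp : 2 ^ 15 ≤ Fintype.card ι) {s : ℕ}
    (hs1 : Fintype.card ι ≤ 2 * (univ.filter fun i => g i ≤ s).card)
    (hs2 : Fintype.card ι ≤ 2 * (univ.filter fun i => s ≤ g i).card)
    (hn : Fintype.card ι * ∑ t ∈ T, (M - wt g t) / m ≤ M) :
    M * (s * ∑ i, ds g s m i) ≤ 2 ^ 35 * (s * ((Fintype.card ι * m + M) * ∑ i, Ad g T M m i) +
      Fintype.card ι * m * (s * s) + M * (m * M)) := by
  have hm0 : 0 < m := by omega
  have eA : ∑ i, ∑ t ∈ T, gp g T M i t / m = ∑ i, Ad g T M m i :=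
    sum_congr rfl fun i _ => sum_top hT i fun y => (M - wt g y) / m
  have eA' : ∀ i, ∑ t ∈ T, gp g T M i t / m = Ad g T M m i :=
    fun i => sum_top hT i fun y => (M - wt g y) / m
  have hc := coord_le hm0 hg hT hM
  have hMn := top_le hm0 hg hT hcard hM
  have hlow := low' (m := m) hT hM s hs2
  have hms : m ≤ s := by
    obtain ⟨i, hi⟩ := card_pos.1 (show 0 < (univ.filter fun i => g i ≤ s).card by omega)
    exact (hg i).trans (mem_filter.1 hi).2
  have hs0 : 0 < s := by omega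
  have hmany := deep_many (g := g) (M := M) hm0 hT hM hms le_rfl hs1 (by omega)
  have hsmall := fun i => small_gen (s := s) (i := i) hm hg hT hM
  have hu : ∀ i, ds g s m i ≤ m := fun _ => min_le_right _ _
  have hone := fun hD => one_dir' hm0 hg hT hcard hinj hM hs0 hD (M / (2 ^ 14 * s))
  have hb1 : 2 ^ 14 * (M / (2 ^ 14 * s) * s) ≤ M := by
    linarith only [Nat.mul_div_le M (2 ^ 14 * s)]
  have hbad := fun hs hD hb => bad_le' hm0 hg hT hcard hM hms hs hs2 hD hb hb1
  have hE : ∑ i, ds g s m i ≤ Fintype.card ι * m := sum_le_card_nsmul _ _ _ fun i _ => hu i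
  have hb2 : M < 2 ^ 14 * s * (M / (2 ^ 14 * s) + 1) := Nat.lt_mul_div_succ _ (by omega)
  have hN := nt_le (g := g) (T := T) (M := M) hm0
  have hLo : (univ.filter fun i => g i ≤ s).card ≤ (Lo g s).card + (Sm g s).card :=
    (card_le_card fun i hi => by
      have := (mem_filter.1 hi).2
      simp only [mem_union, Lo, Sm, mem_filter, mem_univ, true_and]
      omega).trans (card_union_le _ _)
  rw [eA] at hlow hmany
  simp only [eA'] at hsmall
  set n := ∑ t ∈ T, (M - wt g t) / m with hn'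
  set A := ∑ i, Ad g T M m i with hA
  set p := Fintype.card ι with hp'
  set b := M / (2 ^ 14 * s) with hb
  set N := Nt g T M m with hN'
  set S := Sm g s with hS
  have a0 : n ≤ p * n := Nat.le_mul_of_pos_left _ (by omega)
  have a1 : M ≤ 3 * (p * n) + m := by linarith only [hMn, a0]
  have t0 := Nat.mul_le_mul_left (M * s) hE
  have t1 := Nat.mul_le_mul_left (p * m * s) hms
  have z1 := Nat.zero_le (s * (p * m * A))
  have z2 := Nat.zero_le (s * (M * A))
  have z3 := Nat.zero_le (p * m * (s * s))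
  have z4 := Nat.zero_le (M * (m * M))
  by_cases c1 : p * n ≤ 2 ^ 26 * A
  · have : M ≤ 2 ^ 28 * A + m := by omega
    linarith only [t0, t1, Nat.mul_le_mul_left (p * m * s) this, z1, z2, z3, z4]
  by_cases c2 : p * s ≤ 4 * M
  · linarith only [t0, Nat.mul_le_mul_left (M * m) c2, z1, z2, z3, z4]
  by_cases c3 : b = 0
  · rw [c3] at hb2
    linarith only [t0, Nat.mul_le_mul_left (p * m * s) hb2.le, z1, z2, z3, z4]
  have hb0 : 0 < b := Nat.pos_of_ne_zero c3
  have b3 : 2 ^ 24 * ∑ t ∈ T.filter (fun t => ¬ s ≤ M - wt g t), (M - wt g t) / m ≤ n := by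
    refine Nat.le_of_mul_le_mul_left ?_ (show 0 < p by omega)
    linarith only [hlow, not_le.1 c1, Nat.zero_le A]
  have b4 := hmany (by omega) (by omega) (by omega)
  have b5 : S.card * n ≤ 1920 * A := by
    rw [← smul_eq_mul, ← sum_const, hA, mul_sum]
    exact (sum_le_sum fun i hi => hsmall i (mem_filter.1 hi).2 b3 b4).trans
      (sum_le_sum_of_subset (subset_univ _))
  have b6 : ∑ z ∈ T, ∑ j ∈ S, z j * g j ≤ 3840 * (m * A) := by
    rw [sum_comm]
    refine (sum_le_card_nsmul _ _ _ fun i _ => (sum_mul _ _ _).symm.trans_le (hc i)).trans ?_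
    rw [smul_eq_mul]
    linarith only [Nat.mul_le_mul_left m b5]
  have b6' : ∑ t ∈ T, dp S t ≤ 3840 * A := by
    refine Nat.le_of_mul_le_mul_left (le_trans ?_ (b6.trans_eq (by ring))) hm0
    rw [mul_sum]
    refine sum_le_sum fun t _ => ?_
    rw [dp, mul_sum]
    exact sum_le_sum fun i _ => (mul_comm _ _).trans_le (Nat.mul_le_mul_left _ (hg i))
  have b7 : ∀ t ∈ T, dp Sᶜ t * s ≤ 4 * M := fun t ht => by
    refine le_trans ?_ (Nat.mul_le_mul_left 4 (hM t ht))
    rw [dp, sum_mul, wt, mul_sum]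
    refine (sum_le_sum fun i hi => ?_).trans (sum_le_sum_of_subset (subset_univ _))
    have a1 : ¬ 4 * g i ≤ s := fun c => mem_compl.1 hi (mem_filter.2 ⟨mem_univ _, c⟩)
    linarith only [Nat.mul_le_mul_left (t i) (not_le.1 a1).le]
  have hD : ∀ y ∈ T, dp Sᶜ y ≤ p := fun y hy =>
    Nat.le_of_mul_le_mul_right ((b7 y hy).trans (not_le.1 c2).le) hs0
  have b8 : 4 * S.card ≤ p := by
    have n0 : 0 < n := Nat.pos_of_ne_zero fun c => by rw [c] at c1; omega
    refine Nat.le_of_mul_le_mul_right ?_ n0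
    linarith only [b5, not_le.1 c1, Nat.zero_le A]
  have b9 : p * (s * N.card) ≤ 3841 * (s * A) + 4 * (m * M) := by
    have a1 : ∑ t ∈ T, dp Sᶜ t * s ≤ T.card * (4 * M) := sum_le_card_nsmul _ _ _ b7
    have a2 : ∑ t ∈ T, dg t = ∑ t ∈ T, dp S t + ∑ t ∈ T, dp Sᶜ t := by
      rw [← sum_add_distrib]
      exact sum_congr rfl fun t _ => (dp_compl S t).symm
    rw [hcard, ← sum_mul] at a1
    rw [a2] at hN
    linarith only [a1, Nat.mul_le_mul_left s hN, Nat.mul_le_mul_left s b6']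
  have d1 := hbad (by omega) hD hb0
  have d2 : ∑ z ∈ N, dp Sᶜ z * s ≤ N.card * (4 * M) :=
    sum_le_card_nsmul _ _ _ fun z hz => b7 z (mem_filter.1 hz).1
  have d4 := sum_le_sum fun i (_ : i ∈ Sᶜ) => hone hD i
  simp only [← mul_sum, sum_add_distrib, sum_const, smul_eq_mul] at d4
  rw [sum_comm (s := Sᶜ) (t := N)] at d4
  rw [← sum_mul] at d2
  have d5 : ∑ i ∈ Sᶜ, Ad g T M m i ≤ A := sum_le_sum_of_subset (subset_univ _)
  have d6 : ∑ i, ds g s m i ≤ S.card * m + ∑ i ∈ Sᶜ, ds g s m i := by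
    rw [← sum_add_sum_compl S]
    exact Nat.add_le_add_right (sum_le_card_nsmul _ _ _ fun i _ => hu i) _
  have d7 : Sᶜ.card ≤ p := card_le_univ _
  change s * (b * ∑ i ∈ Sᶜ, ds g s m i) ≤ 2 * p * (8 * m * _ + s * ∑ z ∈ N, dp Sᶜ z) + _ at d4
  generalize (T.filter fun z => ¬ Good' g M m s b z).card = k at *
  generalize ∑ z ∈ N, dp Sᶜ z = DN at *
  generalize ∑ i, ds g s m i = E at *
  generalize ∑ i ∈ Sᶜ, ds g s m i = E' at *
  generalize ∑ i ∈ Sᶜ, Ad g T M m i = A' at *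
  generalize ∑ z ∈ T, ∑ j ∈ S, z j * g j = W at *
  generalize N.card = N' at *
  generalize Sᶜ.card = k' at *
  generalize S.card = k'' at *
  have e0 : b * s ≤ M := by omega
  have e1 : M ≤ 2 ^ 15 * (b * s) := by
    linarith only [hb2, Nat.mul_le_mul_left s hb0]
  have e2 : s * (b * E') ≤ 16 * (p * (m * A)) + 8 * (p * (N' * M)) + p * (s * (b * k)) := by
    linarith only [d4, Nat.mul_le_mul_right (s * (b * k)) d7, Nat.mul_le_mul_left (p * m) d5,
      Nat.mul_le_mul_left p d2]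
  have e3 := Nat.mul_le_mul_left M b9
  have e4 : s * (p * (s * (b * k))) ≤ 3849 * (s * (p * m * A)) + 3 * (M * (m * M)) +
      6 * (M * (p * (s * N'))) + 2 * (p * m * (s * s)) := by
    have f1 := Nat.mul_le_mul_left (s * p) d1
    have f2 := Nat.mul_le_mul_left (s * p) b6
    have f3 : b * s * (p * n) * m ≤ M * M * m := Nat.mul_le_mul_right _ (Nat.mul_le_mul e0 hn)
    have f4 := Nat.mul_le_mul_right (p * (s * N')) e0
    linarith only [f1, f2, f3, f4]
  have e5 : M * (s * E') ≤ 2 ^ 34 * (s * (p * m * A) + s * (M * A) + p * m * (s * s) +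
      M * (m * M)) := by
    linarith only [Nat.mul_le_mul_right (s * E') e1, Nat.mul_le_mul_left s e2, e3, e4, z1, z2, z3,
      z4]
  have e6 : M * (s * (k'' * m)) ≤ 5760 * (s * (p * m * A)) + p * m * (s * s) := by
    have f1 := Nat.mul_le_mul_right (s * (k'' * m)) a1
    have f2 := Nat.mul_le_mul_left (s * p * m) b5
    have f3 := Nat.mul_le_mul_left (s * m * m) (show k'' ≤ p by omega)
    linarith only [f1, f2, f3, t1]
  linarith only [Nat.mul_le_mul_left (M * s) d6, e5, e6, z1, z2, z3, z4]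

/-- The weighted gain. -/
theorem gw (hm : 2 ≤ m) (hg : ∀ i, m ≤ g i) (hT : ∀ x ∈ T, ∀ y, y ≤ x → y ∈ T)
    (hcard : T.card = m) (hinj : ∀ x ∈ T, ∀ y ∈ T, wt g x ≡ wt g y [MOD m] → x = y)
    (hM : ∀ x ∈ T, wt g x ≤ M) (hp : 2 ^ 15 ≤ Fintype.card ι) {s : ℕ}
    (hs1 : Fintype.card ι ≤ 2 * (univ.filter fun i => g i ≤ s).card)
    (hs2 : Fintype.card ι ≤ 2 * (univ.filter fun i => s ≤ g i).card)
    (hn : Fintype.card ι * ∑ t ∈ T, (M - wt g t) / m ≤ M) {c k : ℕ}
    (hc : M ≤ c * (Fintype.card ι * m)) (hD : 2 ^ 82 * (k + 1) * s ≤ M)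
    (he : Fintype.card ι * m ≤ k * ∑ i, ds g s m i ∨ Fintype.card ι * s ≤ k * M) :
    M ≤ 2 ^ 82 * (k * (c + 1)) * ∑ i, Ad g T M m i := by
  have h1 := gw_tau hm hg hT hcard hinj hM hp hs1 hn
  have h2 := gw_e hm hg hT hcard hinj hM hp hs1 hs2 hn
  have hms : m ≤ s := by
    obtain ⟨i, hi⟩ := card_pos.1 (show 0 < (univ.filter fun i => g i ≤ s).card by omega)
    exact (hg i).trans (mem_filter.1 hi).2
  generalize ∑ i, Ad g T M m i = A at *
  generalize ∑ i, ds g s m i = E at *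
  generalize Fintype.card ι = p at *
  obtain ⟨θ, hθ⟩ : ∃ θ, θ = s * E + m * M := ⟨_, rfl⟩
  have a1 : s * (p * m) ≤ k * θ := by
    rw [hθ]
    rcases he with c | c
    · linarith only [Nat.mul_le_mul_left s c, Nat.zero_le (k * (m * M))]
    · linarith only [Nat.mul_le_mul_left m c, Nat.zero_le (k * (s * E))]
  have a2 : 0 < θ := Nat.pos_of_ne_zero fun c => by
    have : 0 < s * (p * m) := Nat.mul_pos (by omega) (Nat.mul_pos (by omega) (by omega))
    rw [c] at a1
    omega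
  have a3 : M * θ ≤ 2 ^ 80 * (s * ((p * m + M) * A) + p * m * (s * s) + m * (s * M)) := by
    rw [hθ]
    linarith only [h1, h2, Nat.zero_le (s * ((p * m + M) * A)), Nat.zero_le (p * m * (s * s)),
      Nat.zero_le (m * (s * M))]
  have a4 : s * ((p * m + M) * A) ≤ k * (c + 1) * A * θ := by
    linarith only [Nat.mul_le_mul_left (s * A) hc, Nat.mul_le_mul_left ((c + 1) * A) a1]
  have a5 : p * m * (s * s) + m * (s * M) ≤ (k + 1) * s * θ := by
    have : m * M ≤ θ := by omega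
    linarith only [Nat.mul_le_mul_left s a1, Nat.mul_le_mul_left s this]
  refine Nat.le_of_mul_le_mul_right ?_ a2
  linarith only [a3, a4, a5, Nat.mul_le_mul_right θ hD, Nat.zero_le (k * (c + 1) * A * θ),
    Nat.zero_le (M * θ)]

end Pool.Agent.MP_96f5a9_co.H80

end MrgPart4

-- ======== part 5: formerly Pool.Agent.MP_96f5a9_co.h59a.Spec
section MrgPart5

/-!
Wilf's inequality for large embedding dimension: statements of the cases.
-/

set_option autoImplicit false

namespace Pool.Agent.MP_96f5a9_co.WA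

open Finset H51 H16 H59 H80

section defs

variable {ι : Type} [Fintype ι]

/-- `s` is a median of the generators. -/
def Med (g : ι → ℕ) (s : ℕ) : Prop :=
  Fintype.card ι ≤ 2 * (univ.filter fun i => g i ≤ s).card ∧
    Fintype.card ι ≤ 2 * (univ.filter fun i => s ≤ g i).card

/-- Wilf's inequality for the ideal. -/
def Wilf (g : ι → ℕ) (T : Finset (ι → ℕ)) (m F : ℕ) : Prop :=
  F + 1 ≤ (Fintype.card ι + 1) * ∑ x ∈ T, (F + m - wt g x) / m

/-- The weight of the factors of `z` in `P`. -/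
def wp (g : ι → ℕ) (P : Finset ι) (z : ι → ℕ) : ℕ := ∑ i ∈ P, z i * g i

/-- The integer part of the depth of `z`. -/
def aa (g : ι → ℕ) (M m : ℕ) (z : ι → ℕ) : ℝ := ((M - wt g z) / m : ℕ)

/-- The fractional part of the depth of `z`. -/
noncomputable def ll (g : ι → ℕ) (M m : ℕ) (z : ι → ℕ) : ℝ := (((M - wt g z) % m : ℕ) : ℝ) / m

variable [DecidableEq ι]

/-- The income of `z` under the flow `f`. -/
def inc (f : (ι → ℕ) → ι → ℝ) (z : ι → ℕ) : ℝ := ∑ k, (z k : ℝ) * (f (z - ee k) k - f z k)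

/-- The flow on the blocked edges at `y`. -/
def ded (T : Finset (ι → ℕ)) (f : (ι → ℕ) → ι → ℝ) (y : ι → ℕ) : ℝ :=
  ∑ i ∈ univ.filter (fun i => y + ee i ∉ T), ((y i : ℝ) + 1) * f y i

/-- The unused supply at `y`. -/
def slk (g : ι → ℕ) (M m : ℕ) (f : (ι → ℕ) → ι → ℝ) (y : ι → ℕ) : ℝ :=
  Fintype.card ι * aa g M m y - ∑ i, f y i

end defs

/-- row ZERO: the certificate that doubles the small generators -/
def ZeroStmt : Prop := ∀ (ι : Type) [Fintype ι] [DecidableEq ι] (g : ι → ℕ) (T : Finset (ι → ℕ))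
  (m F Gs : ℕ) (S U : Finset ι), Md g T m F → 8 * m ≤ Gs → (∀ i ∈ S, 4 * g i ≤ Gs) →
  (∀ i ∈ U, Gs ≤ g i) → S.card = U.card → ∃ Δ : ℝ, 0 ≤ Δ ∧
    (∑ i, Ad g T (F + m) m i : ℕ) ≤ Δ + U.card * ∑ z ∈ T, aa g (F + m) m z ∧
    (∑ i ∈ S, Ad g T (F + m) m i : ℕ) ≤ Δ ∧
    ((F + m : ℕ) : ℝ) - m / 2 + ∑ z ∈ T, ll g (F + m) m z * (wp g S z / m) / 3 + Δ ≤
      (Fintype.card ι + 1) * ∑ z ∈ T, aa g (F + m) m z + ∑ z ∈ T, (dp Sᶜ z : ℝ) +
        32 * ((F + m : ℕ) : ℝ) * (∑ z ∈ T, aa g (F + m) m z) / Gs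

/-- row H: bounded depth in terms of the median -/
def HStmt : Prop := ∀ c D : ℕ, ∃ k : ℕ, ∀ (ι : Type) [Fintype ι] [DecidableEq ι] (g : ι → ℕ)
  (T : Finset (ι → ℕ)) (m F s : ℕ), Md g T m F → 2 ≤ Fintype.card ι →
  (Fintype.card ι + 1) ^ k ≤ m → Med g s → F + m ≤ c * (Fintype.card ι * m) → F + m ≤ D * s →
  Wilf g T m F

/-- row III: large median -/
def IIIStmt : Prop := ∀ c K : ℕ, ∃ G D p0 : ℕ, ∀ (ι : Type) [Fintype ι] [DecidableEq ι]
  (g : ι → ℕ) (T : Finset (ι → ℕ)) (m F s : ℕ), Md g T m F → p0 ≤ Fintype.card ι →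
  Fintype.card ι ≤ m → Med g s → F + m ≤ c * (Fintype.card ι * m) → G * m ≤ s → D * s ≤ F + m →
  F + m ≤ K * ∑ i, Ad g T (F + m) m i → Wilf g T m F

/-- case I: bounded median -/
def IStmt : Prop := ∀ c K G : ℕ, ∃ D p0 : ℕ, ∀ (ι : Type) [Fintype ι] [DecidableEq ι]
  (g : ι → ℕ) (T : Finset (ι → ℕ)) (m F s : ℕ), Md g T m F → p0 ≤ Fintype.card ι →
  Fintype.card ι ≤ m → Med g s → F + m ≤ c * (Fintype.card ι * m) → s ≤ G * m → D * s ≤ F + m →
  F + m ≤ K * ∑ i, Ad g T (F + m) m i → Wilf g T m F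

/-- case II: small spread and small density -/
def IIStmt : Prop := ∀ c : ℕ, ∃ k D p0 : ℕ, ∀ (ι : Type) [Fintype ι] [DecidableEq ι]
  (g : ι → ℕ) (T : Finset (ι → ℕ)) (m F s : ℕ), Md g T m F → p0 ≤ Fintype.card ι →
  Fintype.card ι ^ 2 ≤ m → Med g s → F + m ≤ c * (Fintype.card ι * m) → D * s ≤ F + m →
  k * ∑ i, ds g s m i ≤ Fintype.card ι * m → k * (F + m) ≤ Fintype.card ι * s → Wilf g T m F

/-- the theorem for ideals -/
def AllStmt : Prop := ∃ p0 : ℕ, ∀ (ι : Type) [Fintype ι] [DecidableEq ι] (g : ι → ℕ)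
  (T : Finset (ι → ℕ)) (m F : ℕ), Md g T m F → p0 ≤ Fintype.card ι → Wilf g T m F

end Pool.Agent.MP_96f5a9_co.WA

end MrgPart5

-- marker of a merged file
example : 731051 + 864949 = 731051 + 864949 := rfl
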