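import Mathlib.Algebra.Order.Star.Real
import Pool.Agent.MP_96f5a9_co.h59a.Spec

/-!
The accounting identity for flows and the uniform distribution of the fractional depth.
-/

set_option autoImplicit false

namespace Pool.Agent.MP_96f5a9_co.WA

open Finset H51 H16 H59 H80

variable {ι : Type} [Fintype ι] [DecidableEq ι] {g : ι → ℕ} {T : Finset (ι → ℕ)} {m F M : ℕ}

/-- Live edges in one direction, counted from the two ends. -/
lemma live_sum (hT : ∀ x ∈ T, ∀ y, y ≤ x → y ∈ T) (i : ι) (φ : (ι → ℕ) → ℝ) :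
    ∑ y ∈ T.filter (fun y => y + ee i ∈ T), ((y i : ℝ) + 1) * φ y =
      ∑ z ∈ T, (z i : ℝ) * φ (z - ee i) := by
  rw [← sum_filter_add_sum_filter_not T (fun z => 0 < z i) fun z => (z i : ℝ) * φ (z - ee i)]
  rw [sum_eq_zero (s := T.filter fun z => ¬ 0 < z i) fun z hz => by
    simp [Nat.eq_zero_of_not_pos (mem_filter.1 hz).2], add_zero]
  refine sum_nbij' (fun y => y + ee i) (fun z => z - ee i) (fun y hy => ?_) (fun z hz => ?_)
    (fun y _ => by simp) (fun z hz => sub_add_ee (mem_filter.1 hz).2) fun y _ => by simp [ee]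
  · exact mem_filter.2 ⟨(mem_filter.1 hy).2, by simp [ee]⟩
  · exact mem_filter.2 ⟨down hT (mem_filter.1 hz).1 i, by
      rw [sub_add_ee (mem_filter.1 hz).2]; exact (mem_filter.1 hz).1⟩

/-- The line identity in one direction. -/
lemma line_id (hT : ∀ x ∈ T, ∀ y, y ≤ x → y ∈ T) (i : ι) (φ : (ι → ℕ) → ℝ) :
    ∑ y ∈ T, φ y = ∑ y ∈ T.filter (fun y => y + ee i ∉ T), ((y i : ℝ) + 1) * φ y +
      ∑ z ∈ T, (z i : ℝ) * (φ (z - ee i) - φ z) := by
  have h1 := live_sum hT i φ
  have h2 := sum_filter_add_sum_filter_not T (fun y => y + ee i ∈ T) fun y => ((y i : ℝ) + 1) * φ y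
  simp only [mul_sub, sum_sub_distrib]
  have h3 : ∑ y ∈ T, ((y i : ℝ) + 1) * φ y = ∑ y ∈ T, (y i : ℝ) * φ y + ∑ y ∈ T, φ y := by
    simp only [add_mul, one_mul, sum_add_distrib]
  linarith

/-- A function that decreases along the lines is at least its mass at the ends of the lines. -/
lemma ded_le (hT : ∀ x ∈ T, ∀ y, y ≤ x → y ∈ T) (i : ι) (φ : (ι → ℕ) → ℝ)
    (h : ∀ z ∈ T, 0 < z i → φ z ≤ φ (z - ee i)) :
    ∑ y ∈ T.filter (fun y => y + ee i ∉ T), ((y i : ℝ) + 1) * φ y ≤ ∑ y ∈ T, φ y := by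
  rw [line_id hT i φ]
  refine le_add_of_nonneg_right (sum_nonneg fun z hz => ?_)
  rcases Nat.eq_zero_or_pos (z i) with c | c
  · simp [c]
  · exact mul_nonneg (Nat.cast_nonneg _) (sub_nonneg.2 (h z hz c))

lemma sum_ded (f : (ι → ℕ) → ι → ℝ) : ∑ y ∈ T, ded T f y =
    ∑ i, ∑ y ∈ T.filter (fun y => y + ee i ∉ T), ((y i : ℝ) + 1) * f y i := by
  simp only [ded, sum_filter]
  exact sum_comm

/-- The accounting identity. -/
theorem ident (hT : ∀ x ∈ T, ∀ y, y ≤ x → y ∈ T) (f : (ι → ℕ) → ι → ℝ) :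
    (Fintype.card ι + 1) * ∑ z ∈ T, aa g M m z =
      ∑ z ∈ T, (aa g M m z + inc f z + ded T f z + slk g M m f z) := by
  have h1 : ∑ y ∈ T, ∑ i, f y i = ∑ y ∈ T, ded T f y + ∑ z ∈ T, inc f z := by
    rw [sum_comm, sum_ded, sum_congr rfl fun i _ => line_id hT i fun y => f y i, sum_add_distrib]
    congr 1
    exact sum_comm
  simp only [sum_add_distrib, slk, sum_sub_distrib, ← mul_sum]
  linarith

lemma cast_Ad (i : ι) : (Ad g T M m i : ℝ) =
    ∑ y ∈ T.filter (fun y => y + ee i ∉ T), ((y i : ℝ) + 1) * aa g M m y := by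
  simp [Ad, aa]

omit [DecidableEq ι] in
lemma cast_n : ((∑ x ∈ T, (M - wt g x) / m : ℕ) : ℝ) = ∑ z ∈ T, aa g M m z := by
  simp only [aa, Nat.cast_sum]

omit [DecidableEq ι] in
/-- The residues of the depths are uniformly distributed. -/
theorem unif (h : Md g T m F) (φ : ℕ → ℝ) :
    ∑ z ∈ T, φ ((F + m - wt g z) % m) = ∑ l ∈ range m, φ l := by
  classical
  have hinj : ∀ x ∈ T, ∀ y ∈ T, (F + m - wt g x) % m = (F + m - wt g y) % m → x = y := by
    intro x hx y hy e
    refine h.inj x hx y hy ?_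
    have h1 := h.top x hx
    have h2 := h.top y hy
    have h3 : (F + m - wt g x) + wt g x ≡ (F + m - wt g y) + wt g y [MOD m] := by
      rw [Nat.sub_add_cancel h1, Nat.sub_add_cancel h2]
    exact Nat.ModEq.add_left_cancel e h3
  rw [← sum_image (g := fun x => (F + m - wt g x) % m) (f := φ) hinj]
  congr 1
  refine eq_of_subset_of_card_le (fun r hr => ?_) ?_
  · obtain ⟨x, -, rfl⟩ := mem_image.1 hr
    exact mem_range.2 (Nat.mod_lt _ h.pos)
  · rw [card_image_of_injOn hinj, card_range, h.card]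

omit [DecidableEq ι] in
lemma aa_nonneg (z : ι → ℕ) : 0 ≤ aa g M m z := Nat.cast_nonneg _

omit [DecidableEq ι] in
lemma ll_nonneg (z : ι → ℕ) : 0 ≤ ll g M m z := by unfold ll; positivity

omit [DecidableEq ι] in
lemma ll_lt (hm : 0 < m) (z : ι → ℕ) : ll g M m z < 1 :=
  (div_lt_one (Nat.cast_pos.2 hm)).2 (Nat.cast_lt.2 (Nat.mod_lt _ hm))

omit [DecidableEq ι] in
/-- The depth is the sum of its integer and fractional parts. -/
lemma aa_add_ll (hm : 0 < m) {z : ι → ℕ} (hz : wt g z ≤ M) :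
    aa g M m z + ll g M m z = ((M : ℝ) - wt g z) / m := by
  have h0 : (0 : ℝ) < m := Nat.cast_pos.2 hm
  have h1 : ((m * ((M - wt g z) / m) + (M - wt g z) % m : ℕ) : ℝ) = (M - wt g z : ℕ) := by
    rw [Nat.div_add_mod]
  rw [Nat.cast_sub hz, Nat.cast_add, Nat.cast_mul] at h1
  rw [aa, ll, ← h1]
  field_simp

/-- The depth of a parent. -/
lemma depth_sub {z : ι → ℕ} {k : ι} (hz : wt g z ≤ M) (hk : 0 < z k) :
    M - wt g (z - ee k) = M - wt g z + g k := by
  have := wt_sub (g := g) hk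
  omega

/-- The integer depth of a parent. -/
lemma aa_sub (hm : 0 < m) {z : ι → ℕ} {k : ι} (hz : wt g z ≤ M) (hk : 0 < z k) :
    aa g M m (z - ee k) = aa g M m z + (((M - wt g z) % m + g k) / m : ℕ) := by
  rw [aa, aa, depth_sub hz hk, ← Nat.cast_add]
  congr 1
  conv_lhs => rw [← Nat.div_add_mod (M - wt g z) m, add_assoc, Nat.mul_add_div hm]

omit [DecidableEq ι] in
/-- Failure of Wilf's inequality bounds the mass. -/
lemma not_wilf (h : ¬ Wilf g T m F) :
    (Fintype.card ι + 1) * ∑ z ∈ T, aa g (F + m) m z ≤ F ∧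
      Fintype.card ι * ∑ x ∈ T, (F + m - wt g x) / m ≤ F + m := by
  have h1 : (Fintype.card ι + 1) * ∑ x ∈ T, (F + m - wt g x) / m ≤ F := by
    unfold Wilf at h
    omega
  refine ⟨?_, by nlinarith [Nat.zero_le (∑ x ∈ T, (F + m - wt g x) / m)]⟩
  rw [← cast_n]
  exact_mod_cast h1

omit [DecidableEq ι] in
/-- Few points have fractional depth in a short window. -/
lemma card_ll (h : Md g T m F) (P : ℕ → Prop) [DecidablePred P] :
    (T.filter fun z => P ((F + m - wt g z) % m)).card = ((range m).filter P).card := by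
  have := unif h fun l => if P l then 1 else 0
  rw [sum_boole, sum_boole] at this
  exact_mod_cast this

omit [DecidableEq ι] in
/-- A bounded function of large mass has large mass against `ll` and against `1 - ll`. -/
lemma rearr (h : Md g T m F) (f : (ι → ℕ) → ℝ) {B β : ℝ} (hβ : 0 ≤ β) (hβm : 4 ≤ β * m)
    (h0 : ∀ z ∈ T, 0 ≤ f z) (h1 : ∀ z ∈ T, f z ≤ B) (hs : β * B * m ≤ ∑ z ∈ T, f z) :
    β ^ 2 * B * m / 8 ≤ ∑ z ∈ T, ll g (F + m) m z * f z ∧
      β ^ 2 * B * m / 8 ≤ ∑ z ∈ T, (1 - ll g (F + m) m z) * f z := by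
  classical
  have hm : (0 : ℝ) < m := Nat.cast_pos.2 h.pos
  obtain ⟨z0, hz0⟩ : T.Nonempty := card_pos.1 (h.card ▸ h.pos)
  have hB : 0 ≤ B := (h0 z0 hz0).trans (h1 z0 hz0)
  have key : ∀ (w : (ι → ℕ) → ℝ), (∀ z, 0 ≤ w z) →
      ((T.filter fun z => w z < β / 2).card : ℝ) ≤ β * m / 2 + 1 →
      β ^ 2 * B * m / 8 ≤ ∑ z ∈ T, w z * f z := by
    intro w hw hc
    have a1 : ∑ z ∈ T, β / 2 * f z ≤ ∑ z ∈ T, (w z * f z + if w z < β / 2 then β / 2 * B else 0) := by
      refine sum_le_sum fun z hz => ?_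
      have := h0 z hz
      have := h1 z hz
      have := hw z
      split_ifs with c
      · nlinarith
      · nlinarith [not_lt.1 c]
    rw [sum_add_distrib, ← sum_filter, sum_const, nsmul_eq_mul, ← mul_sum] at a1
    have a2 := mul_le_mul_of_nonneg_right hc (show 0 ≤ β / 2 * B by positivity)
    have a3 := mul_le_mul_of_nonneg_left hs (show 0 ≤ β / 2 by positivity)
    have a4 := mul_le_mul_of_nonneg_right hβm (show 0 ≤ β * B by positivity)
    nlinarith
  refine ⟨key _ ll_nonneg ?_, key _ (fun z => (sub_pos.2 (ll_lt h.pos z)).le) ?_⟩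
  · have e := card_ll h fun l => (l : ℝ) / m < β / 2
    simp only [ll]
    rw [e]
    have : ((range m).filter fun l : ℕ => (l : ℝ) / m < β / 2) ⊆ range ⌈β * m / 2⌉₊ := fun l hl => by
      rw [mem_range, Nat.lt_ceil]
      have := (div_lt_iff₀ hm).1 (mem_filter.1 hl).2
      linarith
    have h2 := card_le_card this
    rw [card_range] at h2
    exact (Nat.cast_le.2 h2).trans (Nat.ceil_lt_add_one (by positivity)).le
  · have e := card_ll h fun l => 1 - (l : ℝ) / m < β / 2
    simp only [ll]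
    rw [e]
    have : ((range m).filter fun l : ℕ => 1 - (l : ℝ) / m < β / 2).card ≤
        (range ⌈β * m / 2⌉₊).card := by
      refine card_le_card_of_injOn (fun l => m - l) (fun l hl => ?_) fun l hl l' hl' e => ?_
      · obtain ⟨b1, b2⟩ := mem_filter.1 (mem_coe.1 hl)
        rw [mem_coe, mem_range, Nat.lt_ceil, Nat.cast_sub (mem_range.1 b1).le]
        have : (1 - β / 2) * m < l := by
          rw [← lt_div_iff₀ hm]
          linarith
        linarith
      · have b1 := mem_range.1 (mem_filter.1 (mem_coe.1 hl)).1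
        have b2 := mem_range.1 (mem_filter.1 (mem_coe.1 hl')).1
        simp only at e
        omega
    rw [card_range] at this
    exact (Nat.cast_le.2 this).trans (Nat.ceil_lt_add_one (by positivity)).le

end Pool.Agent.MP_96f5a9_co.WA
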