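import Mathlib.Algebra.BigOperators.Field
import Mathlib.Data.Nat.Cast.Order.Field
import Pool.Agent.MP_96f5a9_co.h59a.Basic

/-!
The certificate that doubles the small generators.
-/

set_option autoImplicit false

namespace Pool.Agent.MP_96f5a9_co.WA

open Finset H51 H16 H59 H80

/-- The cut-off. -/
noncomputable def zchi (G x : ℝ) : ℝ := max 0 (min 1 (2 - 2 * x / G))

lemma zchi_nonneg (G x : ℝ) : 0 ≤ zchi G x := le_max_left _ _

lemma zchi_le (G x : ℝ) : zchi G x ≤ 1 := max_le zero_le_one (min_le_left _ _)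

lemma zchi_one {G x : ℝ} (hG : 0 < G) (h : 2 * x ≤ G) : zchi G x = 1 := by
  have : 2 * x / G ≤ 1 := (div_le_one hG).2 h
  rw [zchi, min_eq_left (by linarith), max_eq_right zero_le_one]

lemma zchi_zero {G x : ℝ} (hG : 0 < G) (h : G ≤ x) : zchi G x = 0 := by
  have : 2 ≤ 2 * x / G := (le_div_iff₀ hG).2 (by linarith)
  exact max_eq_left (min_le_of_right_le (by linarith))

lemma zchi_anti {G x y : ℝ} (hG : 0 < G) (hy : 0 ≤ y) : zchi G (x + y) ≤ zchi G x := by
  have : 2 * x / G ≤ 2 * (x + y) / G := div_le_div_of_nonneg_right (by linarith) hG.le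
  exact max_le_max le_rfl (min_le_min le_rfl (by linarith))

lemma zchi_lip {G x y : ℝ} (hG : 0 < G) (hy : 0 ≤ y) : zchi G x ≤ zchi G (x + y) + 2 * y / G := by
  have e : 2 * (x + y) / G = 2 * x / G + 2 * y / G := by ring
  have h0 : 0 ≤ 2 * y / G := by positivity
  unfold zchi
  rw [e]
  simp only [max_def, min_def]
  split_ifs <;> linarith

variable {ι : Type} [Fintype ι] [DecidableEq ι]

/-- The flow. -/
noncomputable def zf (g : ι → ℕ) (M m Gs : ℕ) (S U : Finset ι) (y : ι → ℕ) (i : ι) : ℝ :=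
  aa g M m y * (1 + (if i ∈ S then zchi Gs (M - wt g y : ℕ) else 0) -
    if i ∈ U then zchi Gs (M - wt g y : ℕ) else 0)

variable {g : ι → ℕ} {M m Gs : ℕ} {S U : Finset ι}

lemma zf_nonneg (y : ι → ℕ) (i : ι) : 0 ≤ zf g M m Gs S U y i := by
  refine mul_nonneg (aa_nonneg _) ?_
  have := zchi_nonneg Gs (M - wt g y : ℕ)
  have := zchi_le Gs (M - wt g y : ℕ)
  split_ifs <;> linarith

lemma zf_ge (y : ι → ℕ) {i : ι} (h : i ∉ U) : aa g M m y ≤ zf g M m Gs S U y i := by
  refine le_mul_of_one_le_right (aa_nonneg _) ?_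
  have := zchi_nonneg Gs (M - wt g y : ℕ)
  rw [if_neg h]
  split_ifs <;> linarith

lemma zf_slk (h : S.card = U.card) (y : ι → ℕ) : slk g M m (zf g M m Gs S U) y = 0 := by
  simp only [slk, zf, ← mul_sum, sum_sub_distrib, sum_add_distrib, sum_ite_mem, univ_inter,
    sum_const, h, card_univ, nsmul_eq_mul]
  ring

/-- The jump of the integer depth along an edge. -/
lemma jump (hm : 0 < m) {z : ι → ℕ} {k : ι} (hz : wt g z ≤ M) (hk : 0 < z k) (hg : m ≤ g k) :
    ∃ κ : ℝ, aa g M m (z - ee k) = aa g M m z + κ ∧ 1 ≤ κ ∧ ll g M m z + g k / m ≤ κ + 1 := by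
  refine ⟨_, aa_sub hm hz hk, ?_, ?_⟩
  · exact_mod_cast (Nat.le_div_iff_mul_le hm).2 (by omega)
  · have h0 : (0 : ℝ) < m := Nat.cast_pos.2 hm
    rw [ll, ← add_div, div_le_iff₀ h0]
    have := Nat.lt_mul_div_succ ((M - wt g z) % m + g k) hm
    rw [mul_comm] at this
    exact_mod_cast this.le

/-- The income along one edge, near the top. -/
lemma edge_near (hm : 0 < m) (hG : 8 * m ≤ Gs) (hS : ∀ i ∈ S, 4 * g i ≤ Gs)
    (hU : ∀ i ∈ U, Gs ≤ g i) {z : ι → ℕ} {k : ι} (hz : wt g z ≤ M) (hk : 0 < z k) (hg : m ≤ g k)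
    (hx : 4 * (M - wt g z) ≤ Gs) :
    (g k : ℝ) / m + (if k ∈ S then ll g M m z * (g k / m) / 3 else -1) ≤
      zf g M m Gs S U (z - ee k) k - zf g M m Gs S U z k := by
  obtain ⟨κ, e, h1, h2⟩ := jump hm hz hk hg
  have hG0 : (0 : ℝ) < Gs := Nat.cast_pos.2 (by omega)
  have l0 := ll_nonneg (g := g) (M := M) (m := m) z
  have l1 := ll_lt (g := g) (M := M) hm z
  have a0 := aa_nonneg (g := g) (M := M) (m := m) z
  have c1 : zchi Gs (M - wt g z : ℕ) = 1 := zchi_one hG0 (by exact_mod_cast (by omega))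
  simp only [zf, e, c1, depth_sub hz hk]
  by_cases s : k ∈ S
  · have u : k ∉ U := fun u => by
      have := hS k s
      have := hU k u
      omega
    have := hS k s
    have c2 : zchi Gs (M - wt g z + g k : ℕ) = 1 := zchi_one hG0 (by exact_mod_cast (by omega))
    simp only [if_pos s, if_neg u, c2]
    have b : ll g M m z * (g k / m) ≤ ll g M m z * (κ + 1 - ll g M m z) :=
      mul_le_mul_of_nonneg_left (by linarith) l0
    nlinarith
  · by_cases u : k ∈ U
    · have := hU k u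
      have c2 : zchi Gs (M - wt g z + g k : ℕ) = 0 := zchi_zero hG0 (by exact_mod_cast (by omega))
      simp only [if_neg s, if_pos u, c2]
      linarith
    · simp only [if_neg s, if_neg u]
      linarith

/-- The income along one edge, anywhere. -/
lemma edge_far (hm : 0 < m) (hG : 8 * m ≤ Gs) {z : ι → ℕ} {k : ι} (hsu : k ∈ S → k ∉ U)
    (hz : wt g z ≤ M) (hk : 0 < z k) (hg : m ≤ g k) :
    -2 * ((g k : ℝ) / m) ≤ zf g M m Gs S U (z - ee k) k - zf g M m Gs S U z k := by
  obtain ⟨κ, e, h1, -⟩ := jump hm hz hk hg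
  have h0 : (0 : ℝ) < m := Nat.cast_pos.2 hm
  have hG0 : (0 : ℝ) < Gs := Nat.cast_pos.2 (by omega)
  have a0 := aa_nonneg (g := g) (M := M) (m := m) z
  have g0 : (0 : ℝ) ≤ g k := Nat.cast_nonneg _
  have γ0 : (0 : ℝ) ≤ g k / m := by positivity
  simp only [zf, e, depth_sub hz hk, Nat.cast_add]
  set x : ℝ := ((M - wt g z : ℕ) : ℝ) with hx
  have c0 := zchi_nonneg Gs (x + g k)
  have c1 := zchi_le Gs x
  have c2 := zchi_anti (x := x) hG0 g0
  have c3 := zchi_lip (x := x) hG0 g0
  by_cases s : k ∈ S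
  · simp only [if_pos s, if_neg (hsu s)]
    have key : aa g M m z * (zchi Gs x - zchi Gs (x + g k)) ≤ 2 * (g k / m) := by
      rcases le_total x Gs with c | c
      · have b1 : aa g M m z ≤ Gs / m :=
          Nat.cast_div_le.trans (div_le_div_of_nonneg_right c h0.le)
        calc _ ≤ ((Gs : ℝ) / m) * (2 * g k / Gs) :=
              mul_le_mul b1 (by linarith) (by linarith) (by positivity)
          _ = _ := by field_simp
      · rw [zchi_zero hG0 c, zchi_zero hG0 (by linarith)]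
        linarith
    nlinarith
  · by_cases u : k ∈ U
    · simp only [if_neg s, if_pos u]
      nlinarith
    · simp only [if_neg s, if_neg u]
      linarith

/-- The income at one point. -/
lemma inc_ge (hm : 0 < m) (hG : 8 * m ≤ Gs) (hS : ∀ i ∈ S, 4 * g i ≤ Gs)
    (hU : ∀ i ∈ U, Gs ≤ g i) (hg : ∀ i, m ≤ g i) {z : ι → ℕ} (hz : wt g z ≤ M) :
    (wt g z : ℝ) / m + ll g M m z * (wp g S z / m) / 3 ≤
      inc (zf g M m Gs S U) z + dp Sᶜ z + 32 * (M : ℝ) * aa g M m z / Gs := by
  have h0 : (0 : ℝ) < m := Nat.cast_pos.2 hm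
  have hG0 : (0 : ℝ) < Gs := Nat.cast_pos.2 (by omega)
  have a0 := aa_nonneg (g := g) (M := M) (m := m) z
  have w1 : (wt g z : ℝ) / m = ∑ k, (z k : ℝ) * (g k / m) := by
    simp only [wt, Nat.cast_sum, Nat.cast_mul, sum_div, mul_div_assoc]
  rcases le_or_gt (4 * (M - wt g z)) Gs with c | c
  · have b1 : ∑ k, (z k : ℝ) * (g k / m + if k ∈ S then ll g M m z * (g k / m) / 3 else -1) ≤
        inc (zf g M m Gs S U) z := by
      refine sum_le_sum fun k _ => ?_
      rcases Nat.eq_zero_or_pos (z k) with d | d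
      · simp [d]
      · exact mul_le_mul_of_nonneg_left (edge_near hm hG hS hU hz d (hg k) c) (Nat.cast_nonneg _)
    have b2 : ∑ k, (z k : ℝ) * (if k ∈ S then ll g M m z * (g k / m) / 3 else -1) =
        ll g M m z * (wp g S z / m) / 3 - dp Sᶜ z := by
      rw [← sum_add_sum_compl S, sum_congr rfl fun k hk => by rw [if_pos hk],
        sum_congr (s₁ := Sᶜ) rfl fun k hk => by rw [if_neg (mem_compl.1 hk)]]
      simp only [wp, dp, Nat.cast_sum, Nat.cast_mul, sum_div, mul_sum, mul_neg, mul_one,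
        sum_neg_distrib, sub_eq_add_neg]
      congr 1
      exact sum_congr rfl fun k _ => by ring
    simp only [mul_add, sum_add_distrib] at b1
    have : 0 ≤ 32 * (M : ℝ) * aa g M m z / Gs := by positivity
    linarith
  · have b1 : ∑ k, (z k : ℝ) * (-2 * (g k / m)) ≤ inc (zf g M m Gs S U) z := by
      refine sum_le_sum fun k _ => ?_
      rcases Nat.eq_zero_or_pos (z k) with d | d
      · simp [d]
      · refine mul_le_mul_of_nonneg_left (edge_far hm hG (fun s u => ?_) hz d (hg k))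
          (Nat.cast_nonneg _)
        have := hS k s
        have := hU k u
        have := hg k
        omega
    have b2 : ∑ k, (z k : ℝ) * (-2 * (g k / m)) = -2 * (wt g z / m) := by
      rw [w1, mul_sum]
      exact sum_congr rfl fun k _ => by ring
    have b3 : (wt g z : ℝ) / m ≤ M / m := div_le_div_of_nonneg_right (Nat.cast_le.2 hz) h0.le
    have b4 : (wp g S z : ℝ) / m ≤ wt g z / m :=
      div_le_div_of_nonneg_right (Nat.cast_le.2 (sum_le_sum_of_subset (subset_univ S))) h0.le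
    have b5 : ll g M m z * (wp g S z / m) ≤ wp g S z / m :=
      mul_le_of_le_one_left (by positivity) (ll_lt hm z).le
    have b6 : (Gs : ℝ) ≤ 8 * (m * aa g M m z) := by
      have := Nat.lt_mul_div_succ (M - wt g z) hm
      rw [mul_add, mul_one] at this
      rw [aa]
      exact_mod_cast (by omega : Gs ≤ 8 * (m * ((M - wt g z) / m)))
    have b7 : 4 * ((M : ℝ) / m) ≤ 32 * (M : ℝ) * aa g M m z / Gs := by
      rw [← mul_div_assoc, div_le_div_iff₀ h0 hG0]
      have := mul_le_mul_of_nonneg_left b6 (show (0 : ℝ) ≤ 4 * M by positivity)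
      linarith
    have b8 : (0 : ℝ) ≤ dp Sᶜ z := Nat.cast_nonneg _
    have b9 : (0 : ℝ) ≤ wt g z / m := by positivity
    linarith

theorem zero : ZeroStmt := by
  intro ι _ _ g T m F Gs S U h hG hS hU hc
  have hm := h.pos
  have h0 : (0 : ℝ) < m := Nat.cast_pos.2 hm
  set f := zf g (F + m) m Gs S U with hf
  have d0 : ∀ i, 0 ≤ ∑ y ∈ T.filter (fun y => y + ee i ∉ T), ((y i : ℝ) + 1) * f y i := fun i =>
    sum_nonneg fun y _ => mul_nonneg (by positivity) (zf_nonneg y i)
  have d1 : ∀ i, i ∉ U → (Ad g T (F + m) m i : ℝ) ≤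
      ∑ y ∈ T.filter (fun y => y + ee i ∉ T), ((y i : ℝ) + 1) * f y i := fun i hi => by
    rw [cast_Ad]
    exact sum_le_sum fun y _ => mul_le_mul_of_nonneg_left (zf_ge y hi) (by positivity)
  have d2 : ∀ i, (Ad g T (F + m) m i : ℝ) ≤ ∑ z ∈ T, aa g (F + m) m z := fun i => by
    rw [cast_Ad]
    refine ded_le h.down i _ fun z hz hi => ?_
    rw [aa_sub hm (h.top z hz) hi]
    exact le_add_of_nonneg_right (Nat.cast_nonneg _)
  refine ⟨∑ y ∈ T, ded T f y, ?_, ?_, ?_, ?_⟩
  · rw [sum_ded]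
    exact sum_nonneg fun i _ => d0 i
  · rw [sum_ded, Nat.cast_sum, ← sum_add_sum_compl U, add_comm]
    refine add_le_add ((sum_le_sum fun i hi => d1 i (mem_compl.1 hi)).trans
      (sum_le_sum_of_subset_of_nonneg (subset_univ _) fun i _ _ => d0 i)) ?_
    rw [← nsmul_eq_mul]
    exact sum_le_card_nsmul _ _ _ fun i _ => d2 i
  · rw [sum_ded, Nat.cast_sum]
    refine (sum_le_sum fun i hi => d1 i fun u => ?_).trans
      (sum_le_sum_of_subset_of_nonneg (subset_univ _) fun i _ _ => d0 i)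
    have := hS i hi
    have := hU i u
    have := h.le i
    omega
  · rw [ident h.down f]
    have e1 := sum_le_sum fun z hz => inc_ge (M := F + m) hm hG hS hU h.le (h.top z hz)
    have e2 : ∑ z ∈ T, (aa g (F + m) m z + ll g (F + m) m z + wt g z / m) = ((F + m : ℕ) : ℝ) := by
      rw [sum_congr rfl fun z hz => show _ = ((F + m : ℕ) : ℝ) / m by
        rw [aa_add_ll hm (h.top z hz)]; ring, sum_const, h.card, nsmul_eq_mul]
      field_simp
    have e3 : ∑ z ∈ T, ll g (F + m) m z ≤ m / 2 := by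
      simp only [ll]
      rw [unif h fun l => (l : ℝ) / m, ← sum_div, div_le_iff₀ h0, ← Nat.cast_sum]
      have := sum_range_id_mul_two m
      have h2 : (∑ i ∈ range m, i) * 2 ≤ m * m := this ▸ Nat.mul_le_mul_left _ (Nat.sub_le _ _)
      have h3 : ((∑ i ∈ range m, i : ℕ) : ℝ) * 2 ≤ m * m := by exact_mod_cast h2
      linarith
    simp only [hf, zf_slk hc, add_zero, sum_add_distrib, ← sum_div, ← mul_sum] at e1 e2 ⊢
    linarith

end Pool.Agent.MP_96f5a9_co.WA
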