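import Mathlib.Algebra.BigOperators.Field
import Pool.Agent.MP_96f5a9_co.h59a.Basic

/-!
The case of a large median generator.
-/

set_option autoImplicit false

namespace Pool.Agent.MP_96f5a9_co.WA

open Finset H51 H16 H59 H80

variable {ι : Type} [Fintype ι] [DecidableEq ι] {g : ι → ℕ} {T : Finset (ι → ℕ)} {m F : ℕ}

omit [DecidableEq ι] in
lemma wp_le_wt (S : Finset ι) (z : ι → ℕ) : wp g S z ≤ wt g z :=
  sum_le_sum_of_subset (subset_univ _)

omit [DecidableEq ι] in
/-- Large generators occur few times. -/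
lemma sum_dp_le (h : Md g T m F) (P : Finset ι) (L : ℕ) (hP : ∀ i ∈ P, L * m ≤ g i) :
    L * ∑ z ∈ T, dp P z ≤ F + m := by
  have h1 : ∑ z ∈ T, m * (L * dp P z) ≤ ∑ _z ∈ T, (F + m) := by
    refine sum_le_sum fun z hz => le_trans ?_ ((wp_le_wt P z).trans (h.top z hz))
    rw [dp, wp, mul_sum, mul_sum]
    refine sum_le_sum fun i hi => ?_
    have := Nat.mul_le_mul_left (z i) (hP i hi)
    linarith only [this]
  rw [sum_const, h.card, smul_eq_mul, ← mul_sum, ← mul_sum] at h1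
  exact Nat.le_of_mul_le_mul_left h1 h.pos

/-- The line identity summed over a set of directions. -/
lemma lines_le (h : Md g T m F) (S : Finset ι) :
    S.card * (m * ∑ t ∈ T, (F + m - wt g t) / m) ≤
      m * ∑ i ∈ S, Ad g T (F + m) m i + 2 * ∑ z ∈ T, wp g S z := by
  have h1 := sum_le_sum fun i (_ : i ∈ S) => line_le h.pos h.le h.down h.top i
  rw [sum_const, smul_eq_mul, sum_add_distrib, ← mul_sum, ← mul_sum] at h1
  have e : ∑ z ∈ T, wp g S z = ∑ i ∈ S, (∑ t ∈ T, t i) * g i := by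
    simp only [wp, sum_mul]
    exact sum_comm
  rwa [e]

theorem caseIII (hz : ZeroStmt) : IIIStmt := by
  intro c K
  refine ⟨2 ^ 22 * ((c + 1) * (K + 1) ^ 2), 1, 128 * (K + 1), ?_⟩
  intro ι _ _ g T m F s h hp hpm hs hc hG hD hK
  by_contra hw
  obtain ⟨w1, w2⟩ := not_wilf hw
  have hm := h.pos
  have hk1 : 1 ≤ (K + 1) ^ 2 := Nat.one_le_pow _ _ (Nat.succ_pos _)
  have hck : (K + 1) ^ 2 ≤ (c + 1) * (K + 1) ^ 2 := Nat.le_mul_of_pos_left _ (Nat.succ_pos _)
  have hkm := Nat.mul_le_mul_right m hk1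
  have hckm := Nat.mul_le_mul_right m hck
  set S := univ.filter fun i => g i < 2 ^ 17 * (K + 1) ^ 2 * m with hS
  have hSU : S.card ≤ (univ.filter fun i => s ≤ g i).card := by
    have a1 := card_filter_add_card_filter_not (s := univ) fun i => s ≤ g i
    have a2 : S.card ≤ (univ.filter fun i => ¬ s ≤ g i).card :=
      card_le_card fun i hi => mem_filter.2 ⟨mem_univ _, not_le.2 (by
        have := (mem_filter.1 hi).2
        linarith only [this, hG, hckm, Nat.zero_le ((K + 1) ^ 2 * m)])⟩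
    have a3 := hs.2
    rw [card_univ] at a1
    omega
  obtain ⟨U, hU, hUc⟩ := exists_subset_card_eq hSU
  obtain ⟨Δ, d0, d1, d2, d3⟩ := hz ι g T m F (2 ^ 22 * ((c + 1) * (K + 1) ^ 2) * m) S U h
    (by linarith only [hkm, hckm, Nat.zero_le m])
    (fun i hi => by
      have := (mem_filter.1 hi).2
      linarith only [this, hckm, Nat.zero_le ((K + 1) ^ 2 * m)])
    (fun i hi => hG.trans (mem_filter.1 (hU hi)).2) hUc.symm
  have e1 := sum_dp_le h Sᶜ (2 ^ 17 * (K + 1) ^ 2) fun i hi => by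
    have := mem_compl.1 hi
    rw [hS, mem_filter] at this
    exact not_lt.1 fun c => this ⟨mem_univ _, c⟩
  have e2 := lines_le h S
  have e3 := H36.top_le hm h.le h.down h.card h.top
  have e4 : ∑ x ∈ T, (F + m - wt g x) / m ≤ c * m :=
    Nat.le_of_mul_le_mul_left (by linarith only [w2, hc]) (show 0 < Fintype.card ι by omega)
  have e5 : 4 * m ≤ F + m := by linarith only [hD, hG, hkm, hckm, Nat.zero_le m]
  have e6 : F + m ≤ (K + 1) * ∑ i, Ad g T (F + m) m i :=
    hK.trans (Nat.mul_le_mul_right _ (Nat.le_succ _))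
  have e7 : ∑ x ∈ T, (F + m - wt g x) / m ≤ Fintype.card ι * ∑ x ∈ T, (F + m - wt g x) / m :=
    Nat.le_mul_of_pos_left _ (by omega)
  have e8 : F + m ≤ 4 * (Fintype.card ι * ∑ x ∈ T, (F + m - wt g x) / m) := by
    linarith only [e3, e5, e7]
  have hm' : (0 : ℝ) < m := Nat.cast_pos.2 hm
  have hk : (1 : ℝ) ≤ (K : ℝ) + 1 := by simp
  have hL0 : 0 ≤ ∑ z ∈ T, ll g (F + m) m z * ((wp g S z : ℝ) / m) :=
    sum_nonneg fun z _ => mul_nonneg (ll_nonneg z) (by positivity)
  have hre : ((F + m : ℕ) : ℝ) ≤ 32 * ((K : ℝ) + 1) * ((∑ z ∈ T, wp g S z : ℕ) / m) →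
      ((F + m : ℕ) : ℝ) ≤ 2 ^ 13 * ((K : ℝ) + 1) ^ 2 *
        ∑ z ∈ T, ll g (F + m) m z * ((wp g S z : ℝ) / m) := by
    intro hW
    have b1 : ((128 * (K + 1) : ℕ) : ℝ) ≤ m := Nat.cast_le.2 (hp.trans hpm)
    push_cast at b1
    have := (rearr h (fun z => (wp g S z : ℝ) / m) (B := ((F + m : ℕ) : ℝ) / m)
      (β := 1 / (32 * ((K : ℝ) + 1))) (by positivity)
      (by rw [one_div_mul_eq_div, le_div_iff₀ (by positivity)]; linarith only [b1])
      (fun z _ => by positivity)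
      (fun z hz => div_le_div_of_nonneg_right
        (Nat.cast_le.2 ((wp_le_wt S z).trans (h.top z hz))) hm'.le)
      (by
        rw [mul_assoc, div_mul_cancel₀ _ hm'.ne', one_div_mul_eq_div, div_le_iff₀ (by positivity),
          ← sum_div, ← Nat.cast_sum]
        linarith only [hW])).1
    rw [mul_assoc, div_mul_cancel₀ _ hm'.ne', div_pow, one_pow, one_div_mul_eq_div, div_div,
      div_le_iff₀ (by positivity)] at this
    linarith only [this]
  rw [← sum_div, ← cast_n, ← Nat.cast_sum T (dp Sᶜ)] at d3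
  rw [← cast_n] at d1 w1
  rw [hUc] at d1
  generalize ∑ z ∈ T, ll g (F + m) m z * ((wp g S z : ℝ) / m) = L at *
  generalize ∑ x ∈ T, (F + m - wt g x) / m = n at *
  generalize ∑ z ∈ T, wp g S z = W at *
  generalize ∑ z ∈ T, dp Sᶜ z = E at *
  generalize ∑ i ∈ S, Ad g T (F + m) m i = B at *
  generalize ∑ i, Ad g T (F + m) m i = A at *
  generalize S.card = q at *
  generalize Fintype.card ι = p at *
  have f0 : (F : ℝ) = (F + m : ℕ) - m := by simp
  rw [f0] at w1
  generalize F + m = M at *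
  have f1 : (2 : ℝ) ^ 17 * ((K : ℝ) + 1) ^ 2 * E ≤ M := by exact_mod_cast e1
  have f2 : (q : ℝ) * (m * n) ≤ m * B + 2 * W := by exact_mod_cast e2
  have f4 : (n : ℝ) ≤ c * m := by exact_mod_cast e4
  have f6 : (M : ℝ) ≤ ((K : ℝ) + 1) * A := by exact_mod_cast e6
  have f8 : (M : ℝ) ≤ 4 * (p * n) := by exact_mod_cast e8
  have f9 : (p : ℝ) * n ≤ M := by exact_mod_cast w2
  have hM : (0 : ℝ) ≤ M := Nat.cast_nonneg _
  have hn : (0 : ℝ) ≤ n := Nat.cast_nonneg _
  have g1 : 2 ^ 17 * ((K : ℝ) + 1) ^ 2 *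
      (32 * (M : ℝ) * n / (2 ^ 22 * ((c + 1) * (K + 1) ^ 2) * m : ℕ)) ≤ M := by
    push_cast
    rw [← mul_div_assoc, div_le_iff₀ (by positivity)]
    have := mul_le_mul_of_nonneg_left (f4.trans (show (c : ℝ) * m ≤ (c + 1) * m by linarith))
      (show 0 ≤ 2 ^ 22 * ((K : ℝ) + 1) ^ 2 * M by positivity)
    linarith only [this]
  generalize 32 * (M : ℝ) * n / (2 ^ 22 * ((c + 1) * (K + 1) ^ 2) * m : ℕ) = R at *
  generalize (K : ℝ) + 1 = k at *
  have hk2 : k ≤ k ^ 2 := by nlinarith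
  have g2 : 2 ^ 17 * k ^ 2 * (L / 3 + Δ) < 2 * M := by
    have := mul_lt_mul_of_pos_left (show L / 3 + Δ < E + R by linarith only [d3, w1, hm'])
      (show 0 < 2 ^ 17 * k ^ 2 by positivity)
    linarith only [this, f1, g1]
  have g3 := mul_nonneg (show 0 ≤ k ^ 2 by positivity) hL0
  have g4 := mul_nonneg (show 0 ≤ k ^ 2 by positivity) d0
  have g5 := mul_le_mul_of_nonneg_right hk2 d0
  rcases le_total (2 * k * q) p with c1 | c1
  · have a1 := mul_le_mul_of_nonneg_right c1 hn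
    have a2 := mul_le_mul_of_nonneg_left d1 (show 0 ≤ k by linarith)
    linarith only [a1, a2, f6, f9, g2, g3, g4, g5, hM]
  · rcases le_total (M : ℝ) (32 * k * (W / m)) with c2 | c2
    · linarith only [hre c2, g2, g3, g4, hM]
    · have a1 := mul_le_mul_of_nonneg_right c1 hn
      have a2 : (q : ℝ) * n ≤ B + 2 * (W / m) := by
        refine le_of_mul_le_mul_left ?_ hm'
        rw [mul_add, mul_left_comm (m : ℝ) 2, mul_div_cancel₀ _ hm'.ne']
        linarith only [f2]
      have a3 := mul_le_mul_of_nonneg_left (a2.trans (add_le_add d2 le_rfl))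
        (show 0 ≤ k by linarith)
      linarith only [a1, a3, c2, f8, g2, g3, g4, g5, hM]

end Pool.Agent.MP_96f5a9_co.WA
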